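import Mathlib

set_option autoImplicit false

namespace Pool.Agent.Helper54.Block

open Finset

/-- generating function of the intersection size of a random subset with a fixed subset -/
lemma sum_pow_inter {X : Type*} [Fintype X] [DecidableEq X] (B : Finset X) (u : ℝ) :
    ∑ D : Finset X, u ^ (D ∩ B).card = (1 + u) ^ B.card * 2 ^ (Fintype.card X - B.card) := by
  have h := Finset.prod_one_add (f := fun x : X => if x ∈ B then u else (1 : ℝ)) (Finset.univ : Finset X)
  have h2 : ∏ x : X, (1 + (if x ∈ B then u else (1 : ℝ)))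
      = (1 + u) ^ B.card * 2 ^ (Fintype.card X - B.card) := by
    have : ∀ x : X, (1 + (if x ∈ B then u else (1 : ℝ))) = if x ∈ B then (1 + u) else 2 := by
      intro x; split_ifs <;> norm_num
    simp_rw [this]
    rw [Finset.prod_ite]
    simp only [Finset.prod_const]
    congr 2
    · congr 1; ext x; simp
    · rw [← Finset.card_compl]
      congr 1; ext x; simp
  have h3 : ∀ D : Finset X, ∏ x ∈ D, (if x ∈ B then u else (1 : ℝ)) = u ^ (D ∩ B).card := by
    intro D
    rw [Finset.prod_ite]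
    simp only [Finset.prod_const_one, mul_one, Finset.prod_const]
    congr 1
  rw [h2] at h
  rw [h]
  rw [Finset.powerset_univ]
  exact (Finset.sum_congr rfl (fun D _ => (h3 D).symm))

lemma count_small {X : Type*} [Fintype X] [DecidableEq X] :
    ((univ.filter (fun D : Finset X => 8 * D.card ≤ Fintype.card X)).card : ℝ)
      ≤ 2 ^ (Fintype.card X) * (81 / 100 : ℝ) ^ (Fintype.card X) := by
  have h := sum_pow_inter (univ : Finset X) ((10 / 11 : ℝ) ^ 8)
  simp only [Finset.inter_univ, Finset.card_univ, Nat.sub_self, pow_zero, mul_one] at h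
  have h1 : ((univ.filter (fun D : Finset X => 8 * D.card ≤ Fintype.card X)).card : ℝ)
      ≤ ∑ D : Finset X, (11 / 10 : ℝ) ^ (Fintype.card X) * ((10 / 11 : ℝ) ^ 8) ^ D.card := by
    rw [Finset.card_eq_sum_ones, Nat.cast_sum]
    rw [Finset.sum_filter]
    apply Finset.sum_le_sum
    intro D _
    split_ifs with hD
    · rw [← pow_mul]
      push_cast
      have e : (11 / 10 : ℝ) ^ (Fintype.card X)
          = (11 / 10 : ℝ) ^ (Fintype.card X - 8 * D.card) * (11 / 10 : ℝ) ^ (8 * D.card) := by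
        rw [← pow_add]; congr 1; omega
      rw [e, mul_assoc, ← mul_pow]
      norm_num
      exact one_le_pow₀ (by norm_num)
    · positivity
  rw [← Finset.mul_sum, h, ← mul_pow] at h1
  refine h1.trans ?_
  rw [← mul_pow]
  apply pow_le_pow_left₀ (by positivity)
  norm_num

lemma count_le {X : Type*} [Fintype X] [DecidableEq X] (K : Finset X) (C : ℕ) :
    ((univ.filter (fun D : Finset X => (D ∩ K).card ≤ C)).card : ℝ)
      ≤ 2 ^ (Fintype.card X) * (2 ^ C * (3 / 4 : ℝ) ^ K.card) := by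
  have h := sum_pow_inter K (1 / 2 : ℝ)
  have h1 : ((univ.filter (fun D : Finset X => (D ∩ K).card ≤ C)).card : ℝ)
      ≤ ∑ D : Finset X, (2 : ℝ) ^ C * (1 / 2 : ℝ) ^ (D ∩ K).card := by
    rw [Finset.card_eq_sum_ones, Nat.cast_sum]
    rw [Finset.sum_filter]
    apply Finset.sum_le_sum
    intro D _
    split_ifs with hD
    · push_cast
      have e : (2 : ℝ) ^ C = 2 ^ (C - (D ∩ K).card) * 2 ^ (D ∩ K).card := by
        rw [← pow_add]; congr 1; omega
      rw [e, mul_assoc, ← mul_pow]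
      norm_num
      exact one_le_pow₀ (by norm_num)
    · positivity
  rw [← Finset.mul_sum, h] at h1
  refine h1.trans (le_of_eq ?_)
  have hk : K.card ≤ Fintype.card X := Finset.card_le_univ K
  have e : (2 : ℝ) ^ (Fintype.card X) = 2 ^ (Fintype.card X - K.card) * 2 ^ K.card := by
    rw [← pow_add]; congr 1; omega
  rw [e]
  have e2 : (1 + 1 / 2 : ℝ) ^ K.card = 2 ^ K.card * (3 / 4 : ℝ) ^ K.card := by
    rw [← mul_pow]; norm_num
  rw [e2]; ring

lemma count_ge {X : Type*} [Fintype X] [DecidableEq X] (K : Finset X) :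
    ((univ.filter (fun D : Finset X => 1 ≤ (D ∩ K).card)).card : ℝ)
      = 2 ^ (Fintype.card X) * (1 - (1 / 2 : ℝ) ^ K.card) := by
  have h := sum_pow_inter K (0 : ℝ)
  have hk : K.card ≤ Fintype.card X := Finset.card_le_univ K
  have h1 : ∑ D : Finset X, (1 : ℝ) = 2 ^ (Fintype.card X) := by
    simp
  have h2 : ((univ.filter (fun D : Finset X => 1 ≤ (D ∩ K).card)).card : ℝ)
      = ∑ D : Finset X, ((1 : ℝ) - 0 ^ (D ∩ K).card) := by
    rw [Finset.card_eq_sum_ones, Nat.cast_sum]
    rw [Finset.sum_filter]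
    apply Finset.sum_congr rfl
    intro D _
    by_cases hD : 1 ≤ (D ∩ K).card
    · rw [if_pos hD, zero_pow (by omega)]; simp
    · rw [if_neg hD]
      have : (D ∩ K).card = 0 := by omega
      rw [this]; simp
  rw [h2, Finset.sum_sub_distrib, h, h1]
  have e : (2 : ℝ) ^ (Fintype.card X) = 2 ^ (Fintype.card X - K.card) * 2 ^ K.card := by
    rw [← pow_add]; congr 1; omega
  have e3 : (2 : ℝ) ^ K.card * (1 / 2 : ℝ) ^ K.card = 1 := by
    rw [← mul_pow]; norm_num
  rw [e, add_zero, one_pow, one_mul, mul_sub, mul_one, mul_assoc, e3, mul_one]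

/-- uniform bound for the number of subsets `D` that do not already exclude `K` -/
lemma count_ok (C : ℕ) : ∃ δ θ : ℝ, 0 < δ ∧ δ < 1 ∧ 0 < θ ∧ θ < 1 ∧ ∃ P0 : ℕ,
    ∀ (X : Type) [Fintype X] [DecidableEq X], P0 ≤ Fintype.card X → ∀ K : Finset X,
    ((univ.filter (fun D : Finset X => 8 * D.card ≤ Fintype.card X ∨
        (1 ≤ (D ∩ K).card ∧ (D ∩ K).card ≤ C))).card : ℝ)
      ≤ 2 ^ (Fintype.card X) * ((1 - δ) * θ ^ K.card) := by
  obtain ⟨R0, hR0⟩ := exists_pow_lt_of_lt_one (show (0 : ℝ) < (3 / 8) / 2 ^ C by positivity)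
    (show (6 / 7 : ℝ) < 1 by norm_num)
  set R := R0 + 4 with hR
  have hR' : (6 / 7 : ℝ) ^ R < (3 / 8) / 2 ^ C := by
    refine lt_of_le_of_lt ?_ hR0
    apply pow_le_pow_of_le_one (by norm_num) (by norm_num); omega
  set d : ℝ := (1 / 2 : ℝ) ^ R with hd
  have hd0 : 0 < d := by positivity
  have hd1 : d ≤ 1 / 16 := by
    have : (1 / 2 : ℝ) ^ R ≤ (1 / 2 : ℝ) ^ 4 := by
      apply pow_le_pow_of_le_one (by norm_num) (by norm_num); omega
    rw [hd]; refine this.trans ?_; norm_num
  have hRpos : (0 : ℝ) < (R : ℝ) := by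
    have : 0 < R := by omega
    exact_mod_cast this
  have hR1 : (1 : ℝ) ≤ (R : ℝ) := by
    have : 1 ≤ R := by omega
    exact_mod_cast this
  -- large cardinality conditions
  have hlim1 : ∃ P1 : ℕ, ∀ n ≥ P1, (81 / 100 : ℝ) ^ n ≤ d / 2 := by
    have := tendsto_pow_atTop_nhds_zero_of_lt_one (show (0 : ℝ) ≤ 81 / 100 by norm_num)
      (show (81 / 100 : ℝ) < 1 by norm_num)
    have h := (this.eventually (ge_mem_nhds (show (0 : ℝ) < d / 2 by positivity)))
    exact Filter.eventually_atTop.mp h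
  have hlim2 : ∃ P2 : ℕ, ∀ n ≥ P2, (81 / 100 / (7 / 8) : ℝ) ^ n ≤ 3 / 8 := by
    have := tendsto_pow_atTop_nhds_zero_of_lt_one (show (0 : ℝ) ≤ 81 / 100 / (7 / 8) by norm_num)
      (show (81 / 100 / (7 / 8) : ℝ) < 1 by norm_num)
    have h := (this.eventually (ge_mem_nhds (show (0 : ℝ) < 3 / 8 by positivity)))
    exact Filter.eventually_atTop.mp h
  obtain ⟨P1, hP1⟩ := hlim1
  obtain ⟨P2, hP2⟩ := hlim2
  have hθ1 : d / (4 * R) ≤ d / 4 := by
    apply div_le_div_of_nonneg_left hd0.le (by norm_num)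
    linarith
  have hθpos : 0 < d / (4 * R) := by positivity
  refine ⟨d / 4, 1 - d / (4 * R), by positivity, by linarith, by linarith, by linarith,
    max P1 P2, ?_⟩
  intro X _ _ hX K
  have hX1 := hP1 _ ((le_max_left _ _).trans hX)
  have hX2 := hP2 _ ((le_max_right _ _).trans hX)
  set n := Fintype.card X with hn
  have hkn : K.card ≤ n := Finset.card_le_univ K
  have h2n : (0 : ℝ) < 2 ^ n := by positivity
  have hsplit : ((univ.filter (fun D : Finset X => 8 * D.card ≤ n ∨
        (1 ≤ (D ∩ K).card ∧ (D ∩ K).card ≤ C))).card : ℝ)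
      ≤ ((univ.filter (fun D : Finset X => 8 * D.card ≤ n)).card : ℝ) +
        ((univ.filter (fun D : Finset X => 1 ≤ (D ∩ K).card ∧ (D ∩ K).card ≤ C)).card : ℝ) := by
    rw [Finset.filter_or]
    exact_mod_cast Finset.card_union_le _ _
  have hs := count_small (X := X)
  rw [← hn] at hs
  refine hsplit.trans ?_
  by_cases hkR : K.card ≤ R
  · -- small K
    have h1 : ((univ.filter (fun D : Finset X => 1 ≤ (D ∩ K).card ∧ (D ∩ K).card ≤ C)).card : ℝ)
        ≤ 2 ^ n * (1 - (1 / 2 : ℝ) ^ K.card) := by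
      rw [← count_ge K]
      norm_cast
      apply Finset.card_le_card
      intro D hD
      simp only [Finset.mem_filter, Finset.mem_univ, true_and] at hD ⊢
      exact hD.1
    have h2 : (1 / 2 : ℝ) ^ R ≤ (1 / 2 : ℝ) ^ K.card :=
      pow_le_pow_of_le_one (by norm_num) (by norm_num) hkR
    have h3 : (1 - d / 4) ≤ (1 - d / (4 * R)) ^ K.card := by
      have hb : 1 + (R : ℝ) * (-(d / (4 * R))) ≤ (1 + (-(d / (4 * R)))) ^ R := by
        apply one_add_mul_le_pow
        linarith
      have e1 : 1 + (R : ℝ) * (-(d / (4 * R))) = 1 - d / 4 := by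
        field_simp
        ring
      rw [e1] at hb
      refine hb.trans ?_
      rw [← sub_eq_add_neg]
      apply pow_le_pow_of_le_one (by linarith) (by linarith) hkR
    have h4 : (1 - d / 4) * (1 - d / 4) ≤ (1 - d / 4) * (1 - d / (4 * R)) ^ K.card :=
      mul_le_mul_of_nonneg_left h3 (by linarith)
    have h5 : (81 / 100 : ℝ) ^ n + (1 - (1 / 2 : ℝ) ^ K.card)
        ≤ (1 - d / 4) * (1 - d / (4 * R)) ^ K.card := by
      refine le_trans ?_ h4
      nlinarith
    calc _ ≤ 2 ^ n * (81 / 100 : ℝ) ^ n + 2 ^ n * (1 - (1 / 2 : ℝ) ^ K.card) := add_le_add hs h1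
      _ = 2 ^ n * ((81 / 100 : ℝ) ^ n + (1 - (1 / 2 : ℝ) ^ K.card)) := by ring
      _ ≤ _ := mul_le_mul_of_nonneg_left h5 h2n.le
  · -- large K
    push Not at hkR
    have h1 : ((univ.filter (fun D : Finset X => 1 ≤ (D ∩ K).card ∧ (D ∩ K).card ≤ C)).card : ℝ)
        ≤ 2 ^ n * (2 ^ C * (3 / 4 : ℝ) ^ K.card) := by
      refine le_trans ?_ (count_le K C)
      norm_cast
      apply Finset.card_le_card
      intro D hD
      simp only [Finset.mem_filter, Finset.mem_univ, true_and] at hD ⊢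
      exact hD.2
    have h2 : 2 ^ C * (3 / 4 : ℝ) ^ K.card ≤ 3 / 8 * (7 / 8 : ℝ) ^ K.card := by
      have e : (3 / 4 : ℝ) ^ K.card = (6 / 7 : ℝ) ^ K.card * (7 / 8 : ℝ) ^ K.card := by
        rw [← mul_pow]; norm_num
      rw [e, ← mul_assoc]
      apply mul_le_mul_of_nonneg_right _ (by positivity)
      have h3 : (6 / 7 : ℝ) ^ K.card ≤ (6 / 7 : ℝ) ^ R :=
        pow_le_pow_of_le_one (by norm_num) (by norm_num) hkR.le
      have h4 : (6 / 7 : ℝ) ^ K.card ≤ (3 / 8) / 2 ^ C := h3.trans hR'.le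
      calc (2 : ℝ) ^ C * (6 / 7 : ℝ) ^ K.card ≤ 2 ^ C * ((3 / 8) / 2 ^ C) :=
            mul_le_mul_of_nonneg_left h4 (by positivity)
        _ = 3 / 8 := by field_simp
    have h3 : (81 / 100 : ℝ) ^ n ≤ 3 / 8 * (7 / 8 : ℝ) ^ K.card := by
      have e : (81 / 100 : ℝ) ^ n = (81 / 100 / (7 / 8) : ℝ) ^ n * (7 / 8 : ℝ) ^ n := by
        rw [← mul_pow]; norm_num
      rw [e]
      apply mul_le_mul hX2 _ (by positivity) (by norm_num)
      apply pow_le_pow_of_le_one (by norm_num) (by norm_num) hkn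
    have h4 : (7 / 8 : ℝ) ^ K.card ≤ (1 - d / (4 * R)) ^ K.card :=
      pow_le_pow_left₀ (by norm_num) (by linarith) _
    have h5 : (81 / 100 : ℝ) ^ n + 2 ^ C * (3 / 4 : ℝ) ^ K.card
        ≤ (1 - d / 4) * (1 - d / (4 * R)) ^ K.card := by
      have h6 : (0 : ℝ) < (1 - d / (4 * R)) ^ K.card := by
        apply pow_pos; linarith
      nlinarith
    calc _ ≤ 2 ^ n * (81 / 100 : ℝ) ^ n + 2 ^ n * (2 ^ C * (3 / 4 : ℝ) ^ K.card) := add_le_add hs h1
      _ = 2 ^ n * ((81 / 100 : ℝ) ^ n + 2 ^ C * (3 / 4 : ℝ) ^ K.card) := by ring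
      _ ≤ _ := mul_le_mul_of_nonneg_left h5 h2n.le


/-- the points of `B` on the line `y = m x + b`, recorded by abscissa -/
def trace (p : ℕ) [Fact p.Prime] (B : Finset (ZMod p × ZMod p)) (l : ZMod p × ZMod p) :
    Finset (ZMod p) :=
  univ.filter (fun x => (x, l.1 * x + l.2) ∈ B)

lemma sum_trace (p : ℕ) [Fact p.Prime] (B : Finset (ZMod p × ZMod p)) :
    ∑ l : ZMod p × ZMod p, (trace p B l).card = p * B.card := by
  have h1 : ∀ l : ZMod p × ZMod p, (trace p B l).card
      = (B.filter (fun q : ZMod p × ZMod p => q.2 = l.1 * q.1 + l.2)).card := by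
    intro l
    apply Finset.card_bij (fun x _ => (x, l.1 * x + l.2))
    · intro x hx
      simp only [trace, Finset.mem_filter, Finset.mem_univ, true_and] at hx
      simp [hx]
    · intro x _ y _ h
      exact (Prod.mk.inj h).1
    · intro q hq
      simp only [Finset.mem_filter] at hq
      refine ⟨q.1, ?_, ?_⟩
      · simp only [trace, Finset.mem_filter, Finset.mem_univ, true_and]
        rw [← hq.2]; exact hq.1
      · rw [← hq.2]
  simp_rw [h1, Finset.card_filter]
  rw [Finset.sum_comm]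
  have h2 : ∀ q ∈ B, ∑ l : ZMod p × ZMod p, (if q.2 = l.1 * q.1 + l.2 then 1 else 0) = p := by
    intro q _
    rw [← Finset.card_filter]
    have : (univ.filter (fun l : ZMod p × ZMod p => q.2 = l.1 * q.1 + l.2)).card
        = (univ : Finset (ZMod p)).card := by
      symm
      apply Finset.card_bij (fun m _ => (m, q.2 - m * q.1))
      · intro m _
        simp
      · intro m _ m' _ h
        exact (Prod.mk.inj h).1
      · intro l hl
        simp only [Finset.mem_filter, Finset.mem_univ, true_and] at hl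
        refine ⟨l.1, Finset.mem_univ _, ?_⟩
        ext
        · rfl
        · simp [hl]
    rw [this, Finset.card_univ, ZMod.card]
  rw [Finset.sum_congr rfl h2]
  simp [mul_comm]

lemma exists_choice (C : ℕ) : ∃ p : ℕ, ∃ _ : Fact p.Prime,
    ∃ w : (ZMod p × ZMod p) → Finset (ZMod p), ∀ B : Finset (ZMod p × ZMod p),
      ∃ l : ZMod p × ZMod p, p < 8 * (w l).card ∧
        ¬ (1 ≤ (w l ∩ trace p B l).card ∧ (w l ∩ trace p B l).card ≤ C) := by
  obtain ⟨δ, θ, hδ0, hδ1, hθ0, hθ1, P0, hP0⟩ := count_ok C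
  have hlim : ∃ P1 : ℕ, ∀ n ≥ P1, θ ^ n ≤ δ / 2 := by
    have := tendsto_pow_atTop_nhds_zero_of_lt_one hθ0.le hθ1
    have h := (this.eventually (ge_mem_nhds (show (0 : ℝ) < δ / 2 by positivity)))
    exact Filter.eventually_atTop.mp h
  obtain ⟨P1, hP1⟩ := hlim
  obtain ⟨p, hp, hprime⟩ := Nat.exists_infinite_primes (max P0 P1 + 1)
  have : Fact p.Prime := ⟨hprime⟩
  refine ⟨p, ⟨hprime⟩, ?_⟩
  by_contra hcon
  push Not at hcon
  -- every choice function is bad for some `B`
  have hcover : (univ : Finset ((ZMod p × ZMod p) → Finset (ZMod p))) ⊆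
      (univ : Finset (Finset (ZMod p × ZMod p))).biUnion (fun B =>
        Fintype.piFinset (fun l => univ.filter (fun D : Finset (ZMod p) =>
          8 * D.card ≤ p ∨
            (1 ≤ (D ∩ trace p B l).card ∧ (D ∩ trace p B l).card ≤ C)))) := by
    intro w _
    obtain ⟨B, hB⟩ := hcon w
    simp only [Finset.mem_biUnion, Finset.mem_univ, true_and, Fintype.mem_piFinset,
      Finset.mem_filter]
    refine ⟨B, fun l => ?_⟩
    by_cases h : p < 8 * (w l).card
    · right; exact hB l h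
    · left; omega
  have hcard := (Finset.card_le_card hcover).trans Finset.card_biUnion_le
  simp only [Fintype.card_piFinset] at hcard
  rw [Finset.card_univ, Fintype.card_fun, Fintype.card_finset, Fintype.card_prod, ZMod.card] at hcard
  have hcardR : (((2 ^ p) ^ (p * p) : ℕ) : ℝ) ≤ ∑ B : Finset (ZMod p × ZMod p),
      ∏ l : ZMod p × ZMod p, ((univ.filter (fun D : Finset (ZMod p) =>
          8 * D.card ≤ p ∨
            (1 ≤ (D ∩ trace p B l).card ∧ (D ∩ trace p B l).card ≤ C))).card : ℝ) := by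
    exact_mod_cast hcard
  have hterm : ∀ B : Finset (ZMod p × ZMod p),
      ∏ l : ZMod p × ZMod p, ((univ.filter (fun D : Finset (ZMod p) =>
          8 * D.card ≤ p ∨
            (1 ≤ (D ∩ trace p B l).card ∧ (D ∩ trace p B l).card ≤ C))).card : ℝ)
      ≤ (2 ^ p * (1 - δ)) ^ (p * p) * (θ ^ p) ^ B.card := by
    intro B
    have h1 : ∀ l ∈ (univ : Finset (ZMod p × ZMod p)),
        ((univ.filter (fun D : Finset (ZMod p) =>
          8 * D.card ≤ p ∨
            (1 ≤ (D ∩ trace p B l).card ∧ (D ∩ trace p B l).card ≤ C))).card : ℝ)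
        ≤ (2 ^ p * (1 - δ)) * θ ^ (trace p B l).card := by
      intro l _
      have hX : P0 ≤ Fintype.card (ZMod p) := by
        rw [ZMod.card]
        have := le_max_left P0 P1
        omega
      have := hP0 (ZMod p) hX (trace p B l)
      simp only [ZMod.card] at this
      rw [mul_assoc]
      exact this
    refine (Finset.prod_le_prod (fun l _ => by positivity) h1).trans (le_of_eq ?_)
    rw [Finset.prod_mul_distrib, Finset.prod_const, Finset.prod_pow_eq_pow_sum, sum_trace,
      Finset.card_univ, Fintype.card_prod, ZMod.card, pow_mul θ p]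
  have hsum : ∑ B : Finset (ZMod p × ZMod p), (2 ^ p * (1 - δ)) ^ (p * p) * (θ ^ p) ^ B.card
      = (2 ^ p * (1 - δ)) ^ (p * p) * (1 + θ ^ p) ^ (p * p) := by
    rw [← Finset.mul_sum]
    congr 1
    have h := sum_pow_inter (univ : Finset (ZMod p × ZMod p)) (θ ^ p)
    simp only [Finset.inter_univ, Finset.card_univ, Nat.sub_self, pow_zero, mul_one,
      Fintype.card_prod, ZMod.card] at h
    exact h
  have hfin : (((2 ^ p) ^ (p * p) : ℕ) : ℝ) ≤ (2 ^ p * (1 - δ)) ^ (p * p) * (1 + θ ^ p) ^ (p * p) := by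
    rw [← hsum]
    exact hcardR.trans (Finset.sum_le_sum (fun B _ => hterm B))
  have hθp : θ ^ p ≤ δ / 2 := hP1 p (by have := le_max_right P0 P1; omega)
  have hθp0 : 0 < θ ^ p := by positivity
  rw [mul_pow, mul_assoc, ← mul_pow] at hfin
  push_cast at hfin
  have h3 : (1 - δ) * (1 + θ ^ p) < 1 := by nlinarith
  have h4 : ((1 - δ) * (1 + θ ^ p)) ^ (p * p) < 1 := by
    apply pow_lt_one₀ (by nlinarith) h3
    have := hprime.pos
    positivity
  have h5 : (0 : ℝ) < (2 ^ p) ^ (p * p) := by positivity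
  nlinarith

end Pool.Agent.Helper54.Block
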