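import Mathlib

set_option autoImplicit false

namespace Pool.Agent.Helper54.NC

open Finset Classical

variable {N : ℕ}

/-- height at abscissa `t` of the line through the points of index `a` and `b`
(the point of index `i` has abscissa `i` and ordinate `y i`) -/
noncomputable def ln (y : Fin N → ℝ) (a b : Fin N) (t : ℝ) : ℝ :=
  y a + (y b - y a) * ((t - ((a : ℕ) : ℝ)) / (((b : ℕ) : ℝ) - ((a : ℕ) : ℝ)))

/-- height of the edge `e` above the point of index `q` -/
noncomputable def ht (y : Fin N → ℝ) (e : Fin N × Fin N) (q : Fin N) : ℝ :=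
  ln y e.1 e.2 ((q : ℕ) : ℝ)

lemma ln_left (y : Fin N → ℝ) (a b : Fin N) : ln y a b ((a : ℕ) : ℝ) = y a := by
  simp [ln]

lemma cast_lt {a b : Fin N} (h : a < b) : ((a : ℕ) : ℝ) < ((b : ℕ) : ℝ) := by
  exact_mod_cast h

lemma ln_right (y : Fin N → ℝ) {a b : Fin N} (h : a < b) : ln y a b ((b : ℕ) : ℝ) = y b := by
  have := cast_lt h
  unfold ln
  rw [div_self (by linarith)]
  ring

/-- slope -/
noncomputable def sl (y : Fin N → ℝ) (a b : Fin N) : ℝ :=
  (y b - y a) / (((b : ℕ) : ℝ) - ((a : ℕ) : ℝ))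

lemma ln_eq_right (y : Fin N → ℝ) {a b : Fin N} (h : a < b) (t : ℝ) :
    ln y a b t = y b + sl y a b * (t - ((b : ℕ) : ℝ)) := by
  have := cast_lt h
  have h2 : (((b : ℕ) : ℝ) - ((a : ℕ) : ℝ)) ≠ 0 := by linarith
  unfold ln sl
  field_simp
  ring

lemma ht_left (y : Fin N → ℝ) (e : Fin N × Fin N) : ht y e e.1 = y e.1 := ln_left y _ _

lemma ht_right (y : Fin N → ℝ) {e : Fin N × Fin N} (h : e.1 < e.2) : ht y e e.2 = y e.2 :=
  ln_right y h

/-- the edge `e` is strictly below `e'` over their common range -/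
def Bel (y : Fin N → ℝ) (e e' : Fin N × Fin N) : Prop :=
  ∀ q : Fin N, e.1 ≤ q → e'.1 ≤ q → q ≤ e.2 → q ≤ e'.2 → ht y e q < ht y e' q

/-- noncrossing pairs of edges -/
def nc (y : Fin N → ℝ) (e e' : Fin N × Fin N) : Prop := Bel y e e' ∨ Bel y e' e

/-- no three points collinear, on the index set `S` -/
def GP (y : Fin N → ℝ) (S : Finset (Fin N)) : Prop :=
  ∀ a ∈ S, ∀ b ∈ S, ∀ q ∈ S, a < b → q ≠ a → q ≠ b → y q ≠ ht y (a, b) q

/-- noncrossing matchings with left endpoints in `A` and set of right endpoints `B` -/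
def IsM (y : Fin N → ℝ) (A B : Finset (Fin N)) (M : Finset (Fin N × Fin N)) : Prop :=
  (∀ e ∈ M, e.1 ∈ A ∧ e.2 ∈ B ∧ e.1 < e.2) ∧
  (∀ e ∈ M, ∀ e' ∈ M, e ≠ e' → e.1 ≠ e'.1 ∧ e.2 ≠ e'.2 ∧ nc y e e') ∧
  (∀ b ∈ B, ∃ e ∈ M, e.2 = b)

noncomputable def MS (y : Fin N → ℝ) (A B : Finset (Fin N)) :
    Finset (Finset (Fin N × Fin N)) := univ.filter (IsM y A B)

lemma mem_MS {y : Fin N → ℝ} {A B : Finset (Fin N)} {M : Finset (Fin N × Fin N)} :
    M ∈ MS y A B ↔ IsM y A B M := by simp [MS]

/-- the point of index `p` sees the edge `e` vertically in presence of the edges `M` -/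
def Sees (y : Fin N → ℝ) (M : Finset (Fin N × Fin N)) (p : Fin N) (e : Fin N × Fin N) : Prop :=
  e.1 < p ∧ p < e.2 ∧ ∀ e' ∈ M, e'.1 ≤ p → p ≤ e'.2 →
    ¬ (y p < ht y e' p ∧ ht y e' p < ht y e p) ∧ ¬ (ht y e p < ht y e' p ∧ ht y e' p < y p)

noncomputable def hits (y : Fin N → ℝ) (P : Finset (Fin N)) (M : Finset (Fin N × Fin N))
    (e : Fin N × Fin N) : ℕ := (P.filter (fun p => Sees y M p e)).card

lemma nc_symm {y : Fin N → ℝ} {e e' : Fin N × Fin N} (h : nc y e e') : nc y e' e := h.symm

lemma nc_ne {y : Fin N → ℝ} {e e' : Fin N × Fin N} (h : nc y e e') {q : Fin N}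
    (h1 : e.1 ≤ q) (h2 : e'.1 ≤ q) (h3 : q ≤ e.2) (h4 : q ≤ e'.2) : ht y e q ≠ ht y e' q := by
  rcases h with h | h
  · exact (h q h1 h2 h3 h4).ne
  · exact (h q h2 h1 h4 h3).ne'

/-- total number of vertical visibilities -/
lemma sum_hits {y : Fin N → ℝ} {A B : Finset (Fin N)} {M : Finset (Fin N × Fin N)}
    (hM : IsM y A B M) (hGP : GP y (A ∪ B)) :
    ∑ e ∈ M, hits y (A ∪ B) M e ≤ 2 * (A ∪ B).card := by
  have h1 : ∑ e ∈ M, hits y (A ∪ B) M e
      = ∑ p ∈ A ∪ B, (M.filter (fun e => Sees y M p e)).card := by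
    simp only [hits, Finset.card_filter]
    rw [Finset.sum_comm]
  rw [h1, mul_comm, ← smul_eq_mul, ← Finset.sum_const]
  apply Finset.sum_le_sum
  intro p hp
  have h2 : M.filter (fun e => Sees y M p e) ⊆
      (M.filter (fun e => Sees y M p e ∧ y p < ht y e p)) ∪
      (M.filter (fun e => Sees y M p e ∧ ht y e p < y p)) := by
    intro e he
    rw [Finset.mem_filter] at he
    obtain ⟨heM, hs⟩ := he
    have hne : y p ≠ ht y (e.1, e.2) p :=
      hGP e.1 (mem_union_left _ (hM.1 e heM).1) e.2 (mem_union_right _ (hM.1 e heM).2.1) p hp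
        (hM.1 e heM).2.2 hs.1.ne' hs.2.1.ne
    rw [Finset.mem_union, Finset.mem_filter, Finset.mem_filter]
    rcases lt_or_gt_of_ne hne with h | h
    · left; exact ⟨heM, hs, h⟩
    · right; exact ⟨heM, hs, h⟩
  refine (Finset.card_le_card h2).trans ((Finset.card_union_le _ _).trans ?_)
  have h3 : (M.filter (fun e => Sees y M p e ∧ y p < ht y e p)).card ≤ 1 := by
    rw [Finset.card_le_one]
    intro e he e' he'
    rw [Finset.mem_filter] at he he'
    obtain ⟨heM, hs, hb⟩ := he
    obtain ⟨heM', hs', hb'⟩ := he'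
    by_contra hne
    have hnc := (hM.2.1 e heM e' heM' hne).2.2
    have hn := nc_ne hnc hs.1.le hs'.1.le hs.2.1.le hs'.2.1.le
    rcases lt_or_gt_of_ne hn with h | h
    · exact (hs'.2.2 e heM hs.1.le hs.2.1.le).1 ⟨hb, h⟩
    · exact (hs.2.2 e' heM' hs'.1.le hs'.2.1.le).1 ⟨hb', h⟩
  have h4 : (M.filter (fun e => Sees y M p e ∧ ht y e p < y p)).card ≤ 1 := by
    rw [Finset.card_le_one]
    intro e he e' he'
    rw [Finset.mem_filter] at he he'
    obtain ⟨heM, hs, hb⟩ := he
    obtain ⟨heM', hs', hb'⟩ := he'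
    by_contra hne
    have hnc := (hM.2.1 e heM e' heM' hne).2.2
    have hn := nc_ne hnc hs.1.le hs'.1.le hs.2.1.le hs'.2.1.le
    rcases lt_or_gt_of_ne hn with h | h
    · exact (hs.2.2 e' heM' hs'.1.le hs'.2.1.le).2 ⟨h, hb'⟩
    · exact (hs'.2.2 e heM hs.1.le hs.2.1.le).2 ⟨h, hb⟩
  omega

/-- geometric heart: two candidate left endpoints `a`, `a'` for the right endpoint `b`,
the edge `(a', b)` being below the edge `(a, b)` -/
lemma key {y : Fin N → ℝ} {P : Finset (Fin N)} {M : Finset (Fin N × Fin N)} {a a' b : Fin N}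
    (ha : a ∈ P) (ha' : a' ∈ P) (haa : a ≠ a') (hab : a < b)
    (hab' : a' < b)
    (hM : ∀ e ∈ M, e.2 ∈ P ∧ e.1 < e.2 ∧ e.2 ≠ b)
    (h1 : ∀ e ∈ M, nc y e (a, b)) (h2 : ∀ e ∈ M, nc y e (a', b))
    (hlow : ∀ q : Fin N, q < b → ht y (a', b) q < ht y (a, b) q) :
    ∃ p ∈ P, p < b ∧ a ≤ p ∧ a' ≤ p ∧ ht y (a', b) p ≤ y p ∧ y p ≤ ht y (a, b) p ∧
      (p ≠ a → Sees y M p (a, b)) ∧ (p ≠ a' → Sees y M p (a', b)) ∧
      (∀ q ∈ P, p < q → q < b → (Sees y M q (a, b) ↔ Sees y M q (a', b))) := by
  set W := P.filter (fun q => q < b ∧ a ≤ q ∧ a' ≤ q ∧ ht y (a', b) q ≤ y q ∧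
    y q ≤ ht y (a, b) q) with hW
  have hWne : W.Nonempty := by
    rcases lt_or_gt_of_ne haa with h | h
    · refine ⟨a', ?_⟩
      rw [hW, Finset.mem_filter]
      refine ⟨ha', hab', h.le, le_refl _, ?_, ?_⟩
      · exact (ht_left y (a', b)).le
      · rw [← ht_left y (a', b)]; exact (hlow a' hab').le
    · refine ⟨a, ?_⟩
      rw [hW, Finset.mem_filter]
      refine ⟨ha, hab, le_refl _, h.le, ?_, ?_⟩
      · have := ht_left y (a, b)
        simp only at this
        rw [← this]; exact (hlow a hab).le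
      · exact (ht_left y (a, b)).ge
  set p := W.max' hWne with hp
  have hpW : p ∈ W := Finset.max'_mem _ _
  have hpmax : ∀ q ∈ W, q ≤ p := fun q hq => Finset.le_max' _ _ hq
  have hpW' := hpW
  rw [hW, Finset.mem_filter] at hpW'
  obtain ⟨hpP, hpb, hap, hap', hp1, hp2⟩ := hpW'
  -- no edge passes through the empty part of the wedge
  have claim1 : ∀ e ∈ M, ∀ q : Fin N, p ≤ q → q < b → e.1 ≤ q → q ≤ e.2 →
      ht y (a', b) q < ht y e q → ht y e q < ht y (a, b) q → e.2 = p ∧ q = p := by
    intro e he q hpq hqb hq1 hq2 hl hu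
    have B1 : Bel y e (a, b) := by
      rcases h1 e he with h | h
      · exact h
      · exfalso
        have := h q (hap.trans hpq) hq1 hqb.le hq2
        linarith
    have B2 : Bel y (a', b) e := by
      rcases h2 e he with h | h
      · exfalso
        have := h q hq1 (hap'.trans hpq) hq2 hqb.le
        linarith
      · exact h
    have he2b : e.2 < b := by
      by_contra hcon
      push Not at hcon
      have t1 := B1 b (hq1.trans hqb.le) hab.le hcon (le_refl _)
      have t2 := B2 b hab'.le (hq1.trans hqb.le) (le_refl _) hcon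
      have t3 := ht_right y (e := (a, b)) hab
      have t4 := ht_right y (e := (a', b)) hab'
      simp only at t3 t4
      linarith
    have t1 := B1 e.2 (hM e he).2.1.le (hap.trans (hpq.trans hq2)) (le_refl _) he2b.le
    have t2 := B2 e.2 (hap'.trans (hpq.trans hq2)) (hM e he).2.1.le he2b.le (le_refl _)
    have t3 := ht_right y (e := e) (hM e he).2.1
    have hmem : e.2 ∈ W := by
      rw [hW, Finset.mem_filter]
      refine ⟨(hM e he).1, he2b, hap.trans (hpq.trans hq2), hap'.trans (hpq.trans hq2), ?_, ?_⟩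
      · linarith
      · linarith
    have h3 := hpmax _ hmem
    have h4 : e.2 = p := le_antisymm h3 (hpq.trans hq2)
    exact ⟨h4, le_antisymm (hq2.trans h3) hpq⟩
  refine ⟨p, hpP, hpb, hap, hap', hp1, hp2, ?_, ?_, ?_⟩
  · intro hpa
    refine ⟨lt_of_le_of_ne hap (Ne.symm hpa), hpb, ?_⟩
    intro e he he1 he2
    refine ⟨?_, ?_⟩
    · rintro ⟨q1, q2⟩
      have := claim1 e he p (le_refl _) hpb he1 he2 (lt_of_le_of_lt hp1 q1) q2
      have h5 := ht_right y (e := e) (hM e he).2.1
      rw [this.1] at h5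
      linarith
    · rintro ⟨q1, q2⟩
      linarith
  · intro hpa
    refine ⟨lt_of_le_of_ne hap' (Ne.symm hpa), hpb, ?_⟩
    intro e he he1 he2
    refine ⟨?_, ?_⟩
    · rintro ⟨q1, q2⟩
      linarith
    · rintro ⟨q1, q2⟩
      have := claim1 e he p (le_refl _) hpb he1 he2 q1 (lt_of_lt_of_le q2 hp2)
      have h5 := ht_right y (e := e) (hM e he).2.1
      rw [this.1] at h5
      linarith
  · intro q hqP hpq hqb
    have hqW : q ∉ W := fun h => absurd (hpmax q h) (not_le.mpr hpq)
    have hout : y q < ht y (a', b) q ∨ ht y (a, b) q < y q := by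
      by_contra hcon
      push Not at hcon
      apply hqW
      rw [hW, Finset.mem_filter]
      exact ⟨hqP, hqb, hap.trans hpq.le, hap'.trans hpq.le, hcon.1, hcon.2⟩
    have hlq := hlow q hqb
    have haq : a < q := lt_of_le_of_lt hap hpq
    have haq' : a' < q := lt_of_le_of_lt hap' hpq
    constructor
    · intro hs
      refine ⟨haq', hqb, ?_⟩
      intro e he he1 he2
      have hs' := hs.2.2 e he he1 he2
      refine ⟨?_, ?_⟩
      · rintro ⟨q1, q2⟩
        rcases hout with ho | ho
        · apply hs'.1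
          exact ⟨q1, q2.trans hlq⟩
        · linarith
      · rintro ⟨q1, q2⟩
        rcases hout with ho | ho
        · linarith
        · have h3 : ht y e q ≤ ht y (a, b) q := by
            by_contra hcon
            push Not at hcon
            exact hs'.2 ⟨hcon, q2⟩
          have h4 : ht y e q ≠ ht y (a, b) q := nc_ne (h1 e he) he1 haq.le he2 hqb.le
          have := claim1 e he q hpq.le hqb he1 he2 q1 (lt_of_le_of_ne h3 h4)
          exact absurd this.2 hpq.ne'
    · intro hs
      refine ⟨haq, hqb, ?_⟩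
      intro e he he1 he2
      have hs' := hs.2.2 e he he1 he2
      refine ⟨?_, ?_⟩
      · rintro ⟨q1, q2⟩
        rcases hout with ho | ho
        · have h3 : ht y (a', b) q ≤ ht y e q := by
            by_contra hcon
            push Not at hcon
            exact hs'.1 ⟨q1, hcon⟩
          have h4 : ht y e q ≠ ht y (a', b) q := nc_ne (h2 e he) he1 haq'.le he2 hqb.le
          have := claim1 e he q hpq.le hqb he1 he2 (lt_of_le_of_ne h3 h4.symm) q2
          exact absurd this.2 hpq.ne'
        · linarith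
      · rintro ⟨q1, q2⟩
        rcases hout with ho | ho
        · linarith
        · exact hs'.2 ⟨hlq.trans q1, q2⟩


/-- visible points for the candidate edge `(a, b)` -/
noncomputable def lst (y : Fin N → ℝ) (P : Finset (Fin N)) (M : Finset (Fin N × Fin N))
    (b a : Fin N) : Finset (Fin N) := P.filter (fun p => Sees y M p (a, b))

/-- rank from the right -/
def rk (L : Finset (Fin N)) (p : Fin N) : ℕ := (L.filter (fun q => p < q)).card

lemma rk_lt {L : Finset (Fin N)} {p : Fin N} (hp : p ∈ L) : rk L p < L.card := by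
  apply Finset.card_lt_card
  rw [Finset.ssubset_iff_of_subset (Finset.filter_subset _ _)]
  exact ⟨p, hp, by simp⟩

lemma rk_strict {L : Finset (Fin N)} {p p' : Fin N} (hp' : p' ∈ L) (h : p < p') :
    rk L p' < rk L p := by
  apply Finset.card_lt_card
  have hsub : L.filter (fun q => p' < q) ⊆ L.filter (fun q => p < q) := by
    intro q hq
    rw [Finset.mem_filter] at hq ⊢
    exact ⟨hq.1, h.trans hq.2⟩
  rw [Finset.ssubset_iff_of_subset hsub]
  exact ⟨p', by simp [hp', h], by simp⟩

lemma rk_inj {L : Finset (Fin N)} {p p' : Fin N} (hp : p ∈ L) (hp' : p' ∈ L)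
    (h : rk L p = rk L p') : p = p' := by
  rcases lt_trichotomy p p' with h1 | h1 | h1
  · have := rk_strict hp' h1
    omega
  · exact h1
  · have := rk_strict hp h1
    omega

noncomputable def up (y : Fin N → ℝ) (P : Finset (Fin N)) (M : Finset (Fin N × Fin N))
    (b a : Fin N) : Finset ℕ :=
  ((lst y P M b a).filter (fun p => ht y (a, b) p < y p)).image (rk (lst y P M b a))

noncomputable def dn (y : Fin N → ℝ) (P : Finset (Fin N)) (M : Finset (Fin N × Fin N))
    (b a : Fin N) : Finset ℕ :=
  ((lst y P M b a).filter (fun p => y p < ht y (a, b) p)).image (rk (lst y P M b a))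

lemma code_ne {y : Fin N → ℝ} {P : Finset (Fin N)} {M : Finset (Fin N × Fin N)} {a a' b : Fin N}
    (hGP : GP y P) (hb : b ∈ P) (ha : a ∈ P) (ha' : a' ∈ P) (haa : a ≠ a') (hab : a < b)
    (hab' : a' < b)
    (hM : ∀ e ∈ M, e.2 ∈ P ∧ e.1 < e.2 ∧ e.2 ≠ b)
    (h1 : ∀ e ∈ M, nc y e (a, b)) (h2 : ∀ e ∈ M, nc y e (a', b))
    (hlow : ∀ q : Fin N, q < b → ht y (a', b) q < ht y (a, b) q)
    (hup : up y P M b a = up y P M b a') (hdn : dn y P M b a = dn y P M b a') : False := by
  obtain ⟨p, hpP, hpb, hap, hap', hp1, hp2, hs1, hs2, hs3⟩ :=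
    key ha ha' haa hab hab' hM h1 h2 hlow
  have hrk : rk (lst y P M b a) p = rk (lst y P M b a') p := by
    unfold rk
    congr 1
    ext q
    simp only [lst, Finset.mem_filter]
    constructor
    · rintro ⟨⟨hq, hs⟩, hpq⟩
      exact ⟨⟨hq, (hs3 q hq hpq hs.2.1).1 hs⟩, hpq⟩
    · rintro ⟨⟨hq, hs⟩, hpq⟩
      exact ⟨⟨hq, (hs3 q hq hpq hs.2.1).2 hs⟩, hpq⟩
  by_cases hpa : p = a
  · -- `p = a`
    have hpa' : p ≠ a' := by rw [hpa]; exact haa
    have hl' : p ∈ lst y P M b a' := by
      rw [lst, Finset.mem_filter]; exact ⟨hpP, hs2 hpa'⟩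
    have hne : y p ≠ ht y (a', b) p := hGP a' ha' b hb p hpP hab' hpa' hpb.ne
    have hmem : rk (lst y P M b a') p ∈ up y P M b a' := by
      rw [up]
      apply Finset.mem_image_of_mem
      rw [Finset.mem_filter]
      exact ⟨hl', lt_of_le_of_ne hp1 hne.symm⟩
    rw [← hup, ← hrk, up, Finset.mem_image] at hmem
    obtain ⟨r, hr, hrr⟩ := hmem
    rw [Finset.mem_filter] at hr
    have hlt := rk_lt hr.1
    rw [hrr] at hlt
    have hfull : rk (lst y P M b a) p = (lst y P M b a).card := by
      unfold rk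
      congr 1
      apply Finset.filter_true_of_mem
      intro q hq
      rw [lst, Finset.mem_filter] at hq
      rw [hpa]; exact hq.2.1
    omega
  · by_cases hpa' : p = a'
    · have hl : p ∈ lst y P M b a := by
        rw [lst, Finset.mem_filter]; exact ⟨hpP, hs1 hpa⟩
      have hne : y p ≠ ht y (a, b) p := hGP a ha b hb p hpP hab hpa hpb.ne
      have hmem : rk (lst y P M b a) p ∈ dn y P M b a := by
        rw [dn]
        apply Finset.mem_image_of_mem
        rw [Finset.mem_filter]
        exact ⟨hl, lt_of_le_of_ne hp2 hne⟩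
      rw [hdn, hrk, dn, Finset.mem_image] at hmem
      obtain ⟨r, hr, hrr⟩ := hmem
      rw [Finset.mem_filter] at hr
      have hlt := rk_lt hr.1
      rw [hrr] at hlt
      have hfull : rk (lst y P M b a') p = (lst y P M b a').card := by
        unfold rk
        congr 1
        apply Finset.filter_true_of_mem
        intro q hq
        rw [lst, Finset.mem_filter] at hq
        rw [hpa']; exact hq.2.1
      omega
    · have hl : p ∈ lst y P M b a := by
        rw [lst, Finset.mem_filter]; exact ⟨hpP, hs1 hpa⟩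
      have hl' : p ∈ lst y P M b a' := by
        rw [lst, Finset.mem_filter]; exact ⟨hpP, hs2 hpa'⟩
      have hne : y p ≠ ht y (a, b) p := hGP a ha b hb p hpP hab hpa hpb.ne
      have hmem : rk (lst y P M b a) p ∈ dn y P M b a := by
        rw [dn]
        apply Finset.mem_image_of_mem
        rw [Finset.mem_filter]
        exact ⟨hl, lt_of_le_of_ne hp2 hne⟩
      rw [hdn, hrk, dn, Finset.mem_image] at hmem
      obtain ⟨r, hr, hrr⟩ := hmem
      rw [Finset.mem_filter] at hr
      have := rk_inj hr.1 hl' hrr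
      rw [this] at hr
      linarith [hr.2]

/-- few candidates of small visibility -/
lemma cand_card {y : Fin N → ℝ} {P : Finset (Fin N)} {M : Finset (Fin N × Fin N)} {b : Fin N}
    {T : Finset (Fin N)} {k : ℕ}
    (hGP : GP y P) (hb : b ∈ P)
    (hM : ∀ e ∈ M, e.2 ∈ P ∧ e.1 < e.2 ∧ e.2 ≠ b)
    (hT : ∀ a ∈ T, a ∈ P ∧ a < b ∧ (∀ e ∈ M, nc y e (a, b)) ∧ (lst y P M b a).card ≤ k) :
    T.card ≤ 4 ^ k := by
  have hcard : ((range k).powerset ×ˢ (range k).powerset).card = 4 ^ k := by
    rw [Finset.card_product, Finset.card_powerset, Finset.card_range, ← mul_pow]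
    norm_num
  rw [← hcard]
  apply Finset.card_le_card_of_injOn (fun a => (up y P M b a, dn y P M b a))
  · intro a ha
    have hk := (hT a ha).2.2.2
    simp only [Finset.coe_product, Set.mem_prod, Finset.mem_coe, Finset.mem_powerset]
    constructor
    · intro j hj
      rw [up, Finset.mem_image] at hj
      obtain ⟨p, hp, rfl⟩ := hj
      rw [Finset.mem_filter] at hp
      rw [Finset.mem_range]
      exact lt_of_lt_of_le (rk_lt hp.1) hk
    · intro j hj
      rw [dn, Finset.mem_image] at hj
      obtain ⟨p, hp, rfl⟩ := hj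
      rw [Finset.mem_filter] at hp
      rw [Finset.mem_range]
      exact lt_of_lt_of_le (rk_lt hp.1) hk
  · intro a ha a' ha' hcode
    simp only [Prod.mk.injEq] at hcode
    by_contra hne
    obtain ⟨haP, hab, hnc, -⟩ := hT a ha
    obtain ⟨haP', hab', hnc', -⟩ := hT a' ha'
    have hslope : sl y a b ≠ sl y a' b := by
      intro h
      apply hGP a haP b hb a' haP' hab (fun h => hne h.symm) hab'.ne
      have e1 := ht_left y (a', b)
      simp only at e1
      rw [← e1]
      unfold ht
      simp only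
      rw [ln_eq_right y hab, ln_eq_right y hab', h]
    rcases lt_or_gt_of_ne hslope with h | h
    · refine code_ne hGP hb haP haP' hne hab hab' hM hnc hnc' ?_ hcode.1 hcode.2
      intro q hq
      unfold ht
      simp only
      rw [ln_eq_right y hab, ln_eq_right y hab']
      have := cast_lt hq
      nlinarith
    · refine code_ne hGP hb haP' haP (fun h => hne h.symm) hab' hab hM hnc' hnc ?_
        hcode.1.symm hcode.2.symm
      intro q hq
      unfold ht
      simp only
      rw [ln_eq_right y hab, ln_eq_right y hab']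
      have := cast_lt hq
      nlinarith


lemma erase_mem {y : Fin N → ℝ} {A B : Finset (Fin N)} {M : Finset (Fin N × Fin N)}
    {e : Fin N × Fin N} (hM : IsM y A B M) (he : e ∈ M) : IsM y A (B.erase e.2) (M.erase e) := by
  refine ⟨?_, ?_, ?_⟩
  · intro e' he'
    rw [Finset.mem_erase] at he'
    have h := hM.1 e' he'.2
    refine ⟨h.1, ?_, h.2.2⟩
    rw [Finset.mem_erase]
    exact ⟨(hM.2.1 e' he'.2 e he he'.1).2.1, h.2.1⟩
  · intro e1 h1 e2 h2 hne
    exact hM.2.1 e1 (Finset.mem_of_mem_erase h1) e2 (Finset.mem_of_mem_erase h2) hne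
  · intro b hb
    rw [Finset.mem_erase] at hb
    obtain ⟨e', he', hb'⟩ := hM.2.2 b hb.2
    refine ⟨e', ?_, hb'⟩
    rw [Finset.mem_erase]
    refine ⟨?_, he'⟩
    rintro rfl
    exact hb.1 hb'.symm

lemma card_M {y : Fin N → ℝ} {A B : Finset (Fin N)} {M : Finset (Fin N × Fin N)}
    (hM : IsM y A B M) : M.card = B.card := by
  apply Finset.card_bij (fun e _ => e.2)
  · intro e he
    exact (hM.1 e he).2.1
  · intro e he e' he' h
    by_contra hne
    exact (hM.2.1 e he e' he' hne).2.1 h
  · intro b hb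
    obtain ⟨e, he, h⟩ := hM.2.2 b hb
    exact ⟨e, he, h⟩

lemma many_low {y : Fin N → ℝ} {A B : Finset (Fin N)} {M : Finset (Fin N × Fin N)}
    (hM : IsM y A B M) (hGP : GP y (A ∪ B)) (hAB : A.card ≤ 2 * B.card) :
    B.card ≤ 2 * (M.filter (fun e => hits y (A ∪ B) M e ≤ 12)).card := by
  have h1 := sum_hits hM hGP
  have h2 := card_M hM
  have h3 : (A ∪ B).card ≤ A.card + B.card := Finset.card_union_le _ _
  have h4 : (M.filter (fun e => hits y (A ∪ B) M e ≤ 12)).card +
      (M.filter (fun e => ¬ hits y (A ∪ B) M e ≤ 12)).card = M.card :=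
    Finset.card_filter_add_card_filter_not _
  have h5 : 13 * (M.filter (fun e => ¬ hits y (A ∪ B) M e ≤ 12)).card
      ≤ ∑ e ∈ M, hits y (A ∪ B) M e := by
    calc 13 * (M.filter (fun e => ¬ hits y (A ∪ B) M e ≤ 12)).card
        = ∑ e ∈ M.filter (fun e => ¬ hits y (A ∪ B) M e ≤ 12), 13 := by
          rw [Finset.sum_const, smul_eq_mul, mul_comm]
      _ ≤ ∑ e ∈ M.filter (fun e => ¬ hits y (A ∪ B) M e ≤ 12), hits y (A ∪ B) M e := by
          apply Finset.sum_le_sum
          intro e he
          rw [Finset.mem_filter] at he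
          omega
      _ ≤ _ := Finset.sum_le_sum_of_subset (Finset.filter_subset _ _)
  omega

/-- candidates for the re-insertion of the right endpoint `b` -/
noncomputable def cnd (y : Fin N → ℝ) (A B : Finset (Fin N)) (b : Fin N)
    (M : Finset (Fin N × Fin N)) : Finset (Fin N) :=
  A.filter (fun a => IsM y A B (insert (a, b) M) ∧
    hits y (A ∪ B) (insert (a, b) M) (a, b) ≤ 12)

lemma cnd_card {y : Fin N → ℝ} {A B : Finset (Fin N)} {M : Finset (Fin N × Fin N)} {b : Fin N}
    (hGP : GP y (A ∪ B)) (hb : b ∈ B)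
    (hM : IsM y A (B.erase b) M) : (cnd y A B b M).card ≤ 4 ^ 12 := by
  apply cand_card hGP (mem_union_right _ hb) (M := M)
  · intro e he
    have h := hM.1 e he
    rw [Finset.mem_erase] at h
    exact ⟨mem_union_right _ h.2.1.2, h.2.2, h.2.1.1⟩
  · intro a ha
    rw [cnd, Finset.mem_filter] at ha
    obtain ⟨haA, hI, hh⟩ := ha
    have hself : (a, b) ∈ insert (a, b) M := Finset.mem_insert_self _ _
    refine ⟨mem_union_left _ haA, (hI.1 _ hself).2.2, ?_, ?_⟩
    · intro e he
      have hne : e ≠ (a, b) := by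
        rintro rfl
        have h := hM.1 _ he
        rw [Finset.mem_erase] at h
        exact h.2.1.1 rfl
      exact (hI.2.1 e (Finset.mem_insert_of_mem he) _ hself hne).2.2
    · refine le_trans (Finset.card_le_card ?_) hh
      intro p hp
      rw [lst, Finset.mem_filter] at hp
      rw [Finset.mem_filter]
      refine ⟨hp.1, hp.2.1, hp.2.2.1, ?_⟩
      intro e he h1 h2
      rw [Finset.mem_insert] at he
      rcases he with rfl | he
      · exact ⟨fun h => lt_irrefl _ h.2, fun h => lt_irrefl _ h.1⟩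
      · exact hp.2.2.2 e he h1 h2

lemma recursion {y : Fin N → ℝ} {A B : Finset (Fin N)}
    (hGP : GP y (A ∪ B)) (hAB : A.card ≤ 2 * B.card) :
    B.card * (MS y A B).card ≤ 2 * 4 ^ 12 * ∑ b ∈ B, (MS y A (B.erase b)).card := by
  have h1 : B.card * (MS y A B).card
      ≤ 2 * ((MS y A B).sigma (fun M => M.filter (fun e => hits y (A ∪ B) M e ≤ 12))).card := by
    rw [Finset.card_sigma, Finset.mul_sum, mul_comm, ← smul_eq_mul, ← Finset.sum_const]
    apply Finset.sum_le_sum
    intro M hM
    exact many_low (mem_MS.1 hM) hGP hAB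
  have h2 : ((MS y A B).sigma (fun M => M.filter (fun e => hits y (A ∪ B) M e ≤ 12))).card
      ≤ (B.sigma (fun b => (MS y A (B.erase b)).sigma (fun M => cnd y A B b M))).card := by
    apply Finset.card_le_card_of_injOn
      (fun x => (⟨x.2.2, ⟨x.1.erase x.2, x.2.1⟩⟩ :
        (_ : Fin N) × ((_ : Finset (Fin N × Fin N)) × Fin N)))
    · rintro ⟨M, e⟩ hx
      simp only [Finset.coe_sigma, Set.mem_sigma_iff, Finset.mem_coe, Finset.mem_filter, mem_MS]
        at hx
      obtain ⟨hM, heM, hh⟩ := hx
      simp only [Finset.coe_sigma, Set.mem_sigma_iff, Finset.mem_coe, mem_MS]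
      refine ⟨(hM.1 e heM).2.1, erase_mem hM heM, ?_⟩
      rw [cnd, Finset.mem_filter]
      have hins : insert (e.1, e.2) (M.erase e) = M := Finset.insert_erase heM
      rw [hins]
      exact ⟨(hM.1 e heM).1, hM, hh⟩
    · rintro ⟨M, e⟩ hx ⟨M', e'⟩ hx' h
      simp only [Finset.coe_sigma, Set.mem_sigma_iff, Finset.mem_coe, Finset.mem_filter, mem_MS]
        at hx hx'
      simp only [Sigma.mk.injEq, heq_eq_eq] at h
      obtain ⟨h1, h2, h3⟩ := h
      have he : e = e' := Prod.ext h3 h1
      subst he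
      have : M = M' := by
        rw [← Finset.insert_erase hx.2.1, ← Finset.insert_erase hx'.2.1, h2]
      subst this
      rfl
  have h3 : (B.sigma (fun b => (MS y A (B.erase b)).sigma (fun M => cnd y A B b M))).card
      ≤ 4 ^ 12 * ∑ b ∈ B, (MS y A (B.erase b)).card := by
    rw [Finset.card_sigma, Finset.mul_sum]
    apply Finset.sum_le_sum
    intro b hb
    rw [Finset.card_sigma, mul_comm, ← smul_eq_mul, ← Finset.sum_const]
    apply Finset.sum_le_sum
    intro M hM
    exact cnd_card hGP hb (mem_MS.1 hM)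
  calc _ ≤ _ := h1
    _ ≤ 2 * (4 ^ 12 * ∑ b ∈ B, (MS y A (B.erase b)).card) :=
        Nat.mul_le_mul_left _ (h2.trans h3)
    _ = _ := by ring

lemma GP_mono {y : Fin N → ℝ} {S T : Finset (Fin N)} (h : GP y T) (hST : S ⊆ T) : GP y S :=
  fun a ha b hb q hq => h a (hST ha) b (hST hb) q (hST hq)

/-- exponential bound for the number of noncrossing matchings -/
theorem MS_card (y : Fin N → ℝ) : ∀ (n : ℕ) (A B : Finset (Fin N)), A.card + B.card = n →
    GP y (A ∪ B) → (MS y A B).card ≤ 4 ^ A.card * (2 * 4 ^ 12) ^ B.card := by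
  intro n
  induction n using Nat.strong_induction_on with
  | _ n ih =>
    intro A B hn hGP
    rcases Nat.eq_zero_or_pos B.card with hB | hB
    · have hB' : B = ∅ := Finset.card_eq_zero.mp hB
      subst hB'
      have : MS y A ∅ ⊆ {∅} := by
        intro M hM
        rw [mem_MS] at hM
        rw [Finset.mem_singleton]
        apply Finset.eq_empty_of_forall_notMem
        intro e he
        have := (hM.1 e he).2.1
        simp at this
      have h := Finset.card_le_card this
      rw [Finset.card_singleton] at h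
      refine h.trans ?_
      rw [Finset.card_empty, pow_zero, mul_one]
      exact Nat.one_le_pow _ _ (by norm_num)
    · rcases Nat.lt_or_ge (2 * B.card) A.card with hAB | hAB
      · -- many isolated left points
        have hsub : MS y A B ⊆ (A.powersetCard B.card).biUnion (fun A' => MS y A' B) := by
          intro M hM
          rw [mem_MS] at hM
          rw [Finset.mem_biUnion]
          refine ⟨M.image Prod.fst, ?_, ?_⟩
          · rw [Finset.mem_powersetCard]
            refine ⟨?_, ?_⟩
            · intro a ha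
              rw [Finset.mem_image] at ha
              obtain ⟨e, he, rfl⟩ := ha
              exact (hM.1 e he).1
            · rw [← card_M hM]
              apply Finset.card_image_of_injOn
              intro e he e' he' h
              by_contra hne
              exact (hM.2.1 e he e' he' hne).1 h
          · rw [mem_MS]
            refine ⟨?_, hM.2.1, hM.2.2⟩
            intro e he
            exact ⟨Finset.mem_image_of_mem _ he, (hM.1 e he).2⟩
        have hterm : ∀ A' ∈ A.powersetCard B.card,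
            (MS y A' B).card ≤ 4 ^ B.card * (2 * 4 ^ 12) ^ B.card := by
          intro A' hA'
          rw [Finset.mem_powersetCard] at hA'
          have := ih (A'.card + B.card) (by omega) A' B rfl
            (GP_mono hGP (Finset.union_subset_union_left hA'.1))
          rw [hA'.2] at this
          exact this
        calc (MS y A B).card ≤ _ := Finset.card_le_card hsub
          _ ≤ ∑ A' ∈ A.powersetCard B.card, (MS y A' B).card := Finset.card_biUnion_le
          _ ≤ ∑ A' ∈ A.powersetCard B.card, 4 ^ B.card * (2 * 4 ^ 12) ^ B.card :=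
              Finset.sum_le_sum hterm
          _ = A.card.choose B.card * (4 ^ B.card * (2 * 4 ^ 12) ^ B.card) := by
              rw [Finset.sum_const, Finset.card_powersetCard, smul_eq_mul]
          _ ≤ 2 ^ A.card * (4 ^ B.card * (2 * 4 ^ 12) ^ B.card) :=
              Nat.mul_le_mul_right _ (Nat.choose_le_two_pow _ _)
          _ = (2 ^ A.card * 2 ^ (2 * B.card)) * (2 * 4 ^ 12) ^ B.card := by
              rw [pow_mul 2 2 B.card]; ring
          _ ≤ (2 ^ A.card * 2 ^ A.card) * (2 * 4 ^ 12) ^ B.card := by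
              apply Nat.mul_le_mul_right
              apply Nat.mul_le_mul_left
              exact Nat.pow_le_pow_right (by norm_num) hAB.le
          _ = 4 ^ A.card * (2 * 4 ^ 12) ^ B.card := by
              rw [← mul_pow]
              norm_num
      · have hrec := recursion hGP hAB
        have hterm : ∀ b ∈ B, (MS y A (B.erase b)).card
            ≤ 4 ^ A.card * (2 * 4 ^ 12) ^ (B.card - 1) := by
          intro b hb
          have hc : (B.erase b).card = B.card - 1 := Finset.card_erase_of_mem hb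
          have := ih (A.card + (B.erase b).card) (by omega) A (B.erase b) rfl
            (GP_mono hGP (Finset.union_subset_union_right (Finset.erase_subset _ _)))
          rw [hc] at this
          exact this
        have hsum : ∑ b ∈ B, (MS y A (B.erase b)).card
            ≤ B.card * (4 ^ A.card * (2 * 4 ^ 12) ^ (B.card - 1)) := by
          rw [← smul_eq_mul, ← Finset.sum_const]
          exact Finset.sum_le_sum hterm
        have hfin : B.card * (MS y A B).card
            ≤ B.card * (4 ^ A.card * (2 * 4 ^ 12) ^ B.card) := by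
          calc _ ≤ _ := hrec
            _ ≤ 2 * 4 ^ 12 * (B.card * (4 ^ A.card * (2 * 4 ^ 12) ^ (B.card - 1))) :=
                Nat.mul_le_mul_left _ hsum
            _ = B.card * (4 ^ A.card * ((2 * 4 ^ 12) ^ (B.card - 1) * (2 * 4 ^ 12))) := by ring
            _ = B.card * (4 ^ A.card * (2 * 4 ^ 12) ^ B.card) := by
                rw [← pow_succ]
                congr 3
                omega
        exact Nat.le_of_mul_le_mul_left hfin hB

end Pool.Agent.Helper54.NC
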