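import Mathlib
import Pool.Agent.Helper54.NC

set_option autoImplicit false

namespace Pool.Agent.Helper54.Cnt

open Finset Classical Pool.Agent.Helper54.NC

/-- resampling one coordinate -/
lemma resample {ι : Type*} [Fintype ι] [DecidableEq ι] {K : ℕ} (j : ι) (f : (ι → Fin K) → ℝ) :
    ∑ Y : ι → Fin K, ∑ s : Fin K, f (Function.update Y j s) = K * ∑ Y : ι → Fin K, f Y := by
  rw [← Finset.sum_product']
  have h1 : ∑ x ∈ (univ : Finset (ι → Fin K)) ×ˢ (univ : Finset (Fin K)),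
      f (Function.update x.1 j x.2)
      = ∑ x ∈ (univ : Finset (ι → Fin K)) ×ˢ (univ : Finset (Fin K)), f x.1 := by
    apply Finset.sum_bij' (fun x _ => (Function.update x.1 j x.2, x.1 j))
      (fun x _ => (Function.update x.1 j x.2, x.1 j))
    · intro x _; simp
    · intro x _; simp
    · intro x _; simp
    · intro x _; simp
    · intro x _; simp
  rw [h1, Finset.sum_product]
  simp [Finset.mul_sum]

/-- one coordinate at a time -/
lemma one_coord {ι : Type*} [Fintype ι] [DecidableEq ι] {K : ℕ} (hK : 0 < K) (j : ι)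
    (Q S : (ι → Fin K) → Prop) (c : ℝ)
    (hQ : ∀ Y s, Q (Function.update Y j s) ↔ Q Y)
    (hS : ∀ Y, ((univ.filter (fun s : Fin K => S (Function.update Y j s))).card : ℝ) ≤ c * K) :
    ((univ.filter (fun Y : ι → Fin K => Q Y ∧ S Y)).card : ℝ)
      ≤ c * ((univ.filter (fun Y : ι → Fin K => Q Y)).card : ℝ) := by
  have hK' : (0 : ℝ) < K := by exact_mod_cast hK
  have h1 := resample j (fun Y : ι → Fin K => if Q Y ∧ S Y then (1 : ℝ) else 0)
  have h2 : ∑ Y : ι → Fin K, (if Q Y ∧ S Y then (1 : ℝ) else 0)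
      = ((univ.filter (fun Y : ι → Fin K => Q Y ∧ S Y)).card : ℝ) := by
    rw [Finset.sum_boole]
  rw [h2] at h1
  have h3 : ∑ Y : ι → Fin K, ∑ s : Fin K,
      (if Q (Function.update Y j s) ∧ S (Function.update Y j s) then (1 : ℝ) else 0)
      ≤ ∑ Y : ι → Fin K, (if Q Y then c * K else 0) := by
    apply Finset.sum_le_sum
    intro Y _
    by_cases h : Q Y
    · rw [if_pos h]
      refine le_trans (le_of_eq ?_) (hS Y)
      rw [← Finset.sum_boole]
      apply Finset.sum_congr rfl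
      intro s _
      simp [hQ, h]
    · rw [if_neg h]
      apply le_of_eq
      apply Finset.sum_eq_zero
      intro s _
      simp [hQ, h]
  have h4 : ∑ Y : ι → Fin K, (if Q Y then c * (K : ℝ) else 0)
      = c * K * ((univ.filter (fun Y : ι → Fin K => Q Y)).card : ℝ) := by
    rw [← Finset.sum_filter, Finset.sum_const, nsmul_eq_mul]
    ring
  rw [h1, h4] at h3
  have h5 : (K : ℝ) * ((univ.filter (fun Y : ι → Fin K => Q Y ∧ S Y)).card : ℝ)
      ≤ K * (c * ((univ.filter (fun Y : ι → Fin K => Q Y)).card : ℝ)) := by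
    linarith
  exact le_of_mul_le_mul_left h5 hK'

/-- several independent coordinates -/
lemma many_coord {ι α : Type*} [Fintype ι] [DecidableEq ι] [DecidableEq α] {K : ℕ} (hK : 0 < K)
    (G : (ι → Fin K) → Prop) (S : α → (ι → Fin K) → Prop) (w : α → ι) (c : α → ℝ)
    (M : Finset α)
    (hc : ∀ e ∈ M, 0 ≤ c e)
    (hG : ∀ e ∈ M, ∀ Y s, G (Function.update Y (w e) s) ↔ G Y)
    (hind : ∀ e ∈ M, ∀ e' ∈ M, e ≠ e' → ∀ Y s, S e' (Function.update Y (w e) s) ↔ S e' Y)
    (hS : ∀ e ∈ M, ∀ Y, ((univ.filter (fun s : Fin K => S e (Function.update Y (w e) s))).card : ℝ)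
      ≤ c e * K) :
    ((univ.filter (fun Y : ι → Fin K => G Y ∧ ∀ e ∈ M, S e Y)).card : ℝ)
      ≤ (∏ e ∈ M, c e) * ((univ.filter (fun Y : ι → Fin K => G Y)).card : ℝ) := by
  induction M using Finset.induction_on with
  | empty => simp
  | insert e M he ih =>
    have ih' := ih (fun e' h => hc e' (Finset.mem_insert_of_mem h))
      (fun e' h => hG e' (Finset.mem_insert_of_mem h))
      (fun e1 h1 e2 h2 => hind e1 (Finset.mem_insert_of_mem h1) e2 (Finset.mem_insert_of_mem h2))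
      (fun e' h => hS e' (Finset.mem_insert_of_mem h))
    have h1 := one_coord hK (w e) (fun Y => G Y ∧ ∀ e' ∈ M, S e' Y) (S e) (c e)
      (by
        intro Y s
        have hself := Finset.mem_insert_self e M
        constructor
        · rintro ⟨h1, h2⟩
          refine ⟨(hG e hself Y s).1 h1, fun e' he' => ?_⟩
          exact (hind e hself e' (Finset.mem_insert_of_mem he')
            (fun h => he (h ▸ he')) Y s).1 (h2 e' he')
        · rintro ⟨h1, h2⟩
          refine ⟨(hG e hself Y s).2 h1, fun e' he' => ?_⟩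
          exact (hind e hself e' (Finset.mem_insert_of_mem he')
            (fun h => he (h ▸ he')) Y s).2 (h2 e' he'))
      (hS e (Finset.mem_insert_self e M))
    rw [Finset.prod_insert he, mul_assoc]
    have ih'' : ((univ.filter (fun Y : ι → Fin K => G Y ∧ ∀ e' ∈ M, S e' Y)).card : ℝ)
        ≤ (∏ e ∈ M, c e) * ((univ.filter (fun Y : ι → Fin K => G Y)).card : ℝ) := by
      convert ih'
    have h1' : ((univ.filter (fun Y : ι → Fin K => (G Y ∧ ∀ e' ∈ M, S e' Y) ∧ S e Y)).card : ℝ)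
        ≤ c e * ((univ.filter (fun Y : ι → Fin K => G Y ∧ ∀ e' ∈ M, S e' Y)).card : ℝ) := by
      convert h1
    refine le_trans ?_
      (h1'.trans (mul_le_mul_of_nonneg_left ih'' (hc e (Finset.mem_insert_self e M))))
    norm_cast
    apply Finset.card_le_card
    intro Y hY
    simp only [Finset.mem_filter, Finset.mem_univ, true_and, Finset.mem_insert,
      forall_eq_or_imp] at hY ⊢
    exact ⟨⟨hY.1, hY.2.2⟩, hY.2.1⟩

/-- integer points in a short interval -/
lemma count_interval (K : ℕ) (c r : ℝ) (hr : 0 ≤ r) :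
    ((univ.filter (fun s : Fin K => |((s : ℕ) : ℝ) - c| < r)).card : ℝ) ≤ 2 * r + 1 := by
  have h1 : (univ.filter (fun s : Fin K => |((s : ℕ) : ℝ) - c| < r)).card
      ≤ (Finset.Ioo (⌊c - r⌋) (⌈c + r⌉)).card := by
    apply Finset.card_le_card_of_injOn (fun s : Fin K => (((s : ℕ)) : ℤ))
    · intro s hs
      simp only [Finset.coe_filter, Finset.mem_univ, true_and, Set.mem_ofPred_eq] at hs
      rw [abs_lt] at hs
      simp only [Finset.coe_Ioo, Set.mem_Ioo]
      constructor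
      · rw [Int.floor_lt]
        push_cast
        linarith [hs.1]
      · rw [Int.lt_ceil]
        push_cast
        linarith [hs.2]
    · intro s _ t _ h
      apply Fin.ext
      simpa using h
  have h2 : ((Finset.Ioo (⌊c - r⌋) (⌈c + r⌉)).card : ℝ) ≤ 2 * r + 1 := by
    rw [Int.card_Ioo]
    have h3 : ((⌈c + r⌉ - ⌊c - r⌋ - 1 : ℤ) : ℝ) ≤ 2 * r + 1 := by
      push_cast
      have := Int.ceil_lt_add_one (c + r)
      have := Int.lt_floor_add_one (c - r)
      linarith
    have h4 : (((⌈c + r⌉ - ⌊c - r⌋ - 1).toNat : ℤ) : ℝ) ≤ 2 * r + 1 := by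
      rcases le_or_gt 0 (⌈c + r⌉ - ⌊c - r⌋ - 1) with h | h
      · rw [Int.toNat_of_nonneg h]; exact h3
      · rw [Int.toNat_of_nonpos h.le]; push_cast; linarith
    exact_mod_cast h4
  exact (by exact_mod_cast h1 : ((univ.filter (fun s : Fin K => |((s : ℕ) : ℝ) - c| < r)).card : ℝ)
    ≤ ((Finset.Ioo (⌊c - r⌋) (⌈c + r⌉)).card : ℝ)).trans h2


/-- number of `Y` with a property, as a real number -/
noncomputable def cnt {N K : ℕ} (P : (Fin N → Fin K) → Prop) : ℝ :=
  ∑ Y : Fin N → Fin K, if P Y then (1 : ℝ) else 0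

lemma cnt_eq {N K : ℕ} (P : (Fin N → Fin K) → Prop) :
    cnt P = ((univ.filter (fun Y => P Y)).card : ℝ) := by
  unfold cnt
  rw [Finset.sum_boole]

lemma cnt_nonneg {N K : ℕ} (P : (Fin N → Fin K) → Prop) : 0 ≤ cnt P := by
  rw [cnt_eq]; positivity

lemma cnt_mono {N K : ℕ} {P Q : (Fin N → Fin K) → Prop} (h : ∀ Y, P Y → Q Y) :
    cnt P ≤ cnt Q := by
  unfold cnt
  apply Finset.sum_le_sum
  intro Y _
  by_cases hP : P Y
  · rw [if_pos hP, if_pos (h Y hP)]
  · rw [if_neg hP]; split_ifs <;> norm_num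

lemma cnt_le_sum {N K : ℕ} {α : Type*} (P : (Fin N → Fin K) → Prop) (I : Finset α)
    (Q : α → (Fin N → Fin K) → Prop) (h : ∀ Y, P Y → ∃ i ∈ I, Q i Y) :
    cnt P ≤ ∑ i ∈ I, cnt (Q i) := by
  unfold cnt
  rw [Finset.sum_comm]
  apply Finset.sum_le_sum
  intro Y _
  by_cases hP : P Y
  · rw [if_pos hP]
    obtain ⟨i, hi, hQ⟩ := h Y hP
    have h1 := Finset.single_le_sum (f := fun i => if Q i Y then (1 : ℝ) else 0)
      (fun j _ => by positivity) hi
    simp only [if_pos hQ] at h1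
    exact h1
  · rw [if_neg hP]
    apply Finset.sum_nonneg
    intro i _
    positivity

/-- real heights -/
def yr {N K : ℕ} (Y : Fin N → Fin K) : Fin N → ℝ := fun i => ((Y i : ℕ) : ℝ)

/-- the point of index `v` is close to the edge `(a, b)` -/
def Sm {N K : ℕ} (ε : ℝ) (Y : Fin N → Fin K) (e : Fin N × Fin N) (v : Fin N) : Prop :=
  |yr Y v - ht (yr Y) e v| < 12 * ε * K / (((e.2 : ℕ) : ℝ) - ((e.1 : ℕ) : ℝ))

lemma ht_congr {N : ℕ} {y y' : Fin N → ℝ} {e : Fin N × Fin N} (h1 : y e.1 = y' e.1)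
    (h2 : y e.2 = y' e.2) (q : Fin N) : ht y e q = ht y' e q := by
  unfold ht ln
  rw [h1, h2]

lemma IsM_congr {N : ℕ} {y y' : Fin N → ℝ} {A B : Finset (Fin N)} {M : Finset (Fin N × Fin N)}
    (h : ∀ i ∈ A ∪ B, y i = y' i) (hM : IsM y A B M) : IsM y' A B M := by
  refine ⟨hM.1, ?_, hM.2.2⟩
  intro e he e' he' hne
  obtain ⟨h1, h2, h3⟩ := hM.2.1 e he e' he' hne
  refine ⟨h1, h2, ?_⟩
  have hh : ∀ f ∈ M, ∀ q, ht y' f q = ht y f q := by
    intro f hf q
    exact ht_congr (h _ (mem_union_left _ (hM.1 f hf).1)).symm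
      (h _ (mem_union_right _ (hM.1 f hf).2.1)).symm q
  rcases h3 with h3 | h3
  · left
    intro q q1 q2 q3 q4
    rw [hh e he, hh e' he']
    exact h3 q q1 q2 q3 q4
  · right
    intro q q1 q2 q3 q4
    rw [hh e he, hh e' he']
    exact h3 q q1 q2 q3 q4

lemma GP_congr {N : ℕ} {y y' : Fin N → ℝ} {S : Finset (Fin N)}
    (h : ∀ i ∈ S, y i = y' i) (hS : GP y S) : GP y' S := by
  intro a ha b hb q hq hab hqa hqb
  rw [← h q hq, ht_congr (e := (a, b)) (h a ha).symm (h b hb).symm q]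
  exact hS a ha b hb q hq hab hqa hqb

/-- endpoints of a set of edges -/
noncomputable def V {N : ℕ} (M : Finset (Fin N × Fin N)) : Finset (Fin N) :=
  M.image Prod.fst ∪ M.image Prod.snd

def Gd {N K : ℕ} (M : Finset (Fin N × Fin N)) (Y : Fin N → Fin K) : Prop :=
  IsM (yr Y) (M.image Prod.fst) (M.image Prod.snd) M ∧ GP (yr Y) (V M)

lemma yr_update {N K : ℕ} (Y : Fin N → Fin K) (j : Fin N) (s : Fin K) {i : Fin N} (h : i ≠ j) :
    yr (Function.update Y j s) i = yr Y i := by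
  unfold yr
  rw [Function.update_of_ne h]

lemma Gd_update {N K : ℕ} (M : Finset (Fin N × Fin N)) (Y : Fin N → Fin K) (j : Fin N)
    (s : Fin K) (hj : j ∉ V M) : Gd M (Function.update Y j s) ↔ Gd M Y := by
  have h : ∀ i ∈ V M, yr (Function.update Y j s) i = yr Y i := by
    intro i hi
    apply yr_update
    rintro rfl
    exact hj hi
  constructor
  · rintro ⟨h1, h2⟩
    exact ⟨IsM_congr h h1, GP_congr h h2⟩
  · rintro ⟨h1, h2⟩
    exact ⟨IsM_congr (fun i hi => (h i hi).symm) h1, GP_congr (fun i hi => (h i hi).symm) h2⟩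

/-- the bound for a fixed combinatorial structure -/
lemma fixed_structure {N K : ℕ} (hK : 0 < K) {ε : ℝ} (hε : 0 < ε) (hKN : (N : ℝ) ≤ ε * K)
    (M : Finset (Fin N × Fin N)) (w : Fin N × Fin N → Fin N) (hM : ∀ e ∈ M, e.1 < e.2)
    (hw : ∀ e ∈ M, w e ∉ V M) (hinj : ∀ e ∈ M, ∀ e' ∈ M, e ≠ e' → w e ≠ w e') :
    cnt (fun Y : Fin N → Fin K => Gd M Y ∧ ∀ e ∈ M, Sm ε Y e (w e))
      ≤ (∏ e ∈ M, 25 * ε / (((e.2 : ℕ) : ℝ) - ((e.1 : ℕ) : ℝ))) *
        cnt (fun Y : Fin N → Fin K => Gd M Y) := by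
  have hpos : ∀ e ∈ M, 0 < (((e.2 : ℕ) : ℝ) - ((e.1 : ℕ) : ℝ)) := by
    intro e he
    have := cast_lt (hM e he)
    linarith
  have hV1 : ∀ e ∈ M, e.1 ∈ V M := fun e he => mem_union_left _ (Finset.mem_image_of_mem _ he)
  have hV2 : ∀ e ∈ M, e.2 ∈ V M := fun e he => mem_union_right _ (Finset.mem_image_of_mem _ he)
  have h := many_coord hK (fun Y : Fin N → Fin K => Gd M Y) (fun e Y => Sm ε Y e (w e)) w
    (fun e => 25 * ε / (((e.2 : ℕ) : ℝ) - ((e.1 : ℕ) : ℝ))) M
    (fun e he => by have := hpos e he; positivity)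
    (fun e he Y s => Gd_update M Y (w e) s (hw e he))
    (by
      intro e he e' he' hne Y s
      have t1 : yr (Function.update Y (w e) s) (w e') = yr Y (w e') :=
        yr_update Y _ s (fun h => hinj e he e' he' hne h.symm)
      have t2 : yr (Function.update Y (w e) s) e'.1 = yr Y e'.1 :=
        yr_update Y _ s (fun h => hw e he (h ▸ hV1 e' he'))
      have t3 : yr (Function.update Y (w e) s) e'.2 = yr Y e'.2 :=
        yr_update Y _ s (fun h => hw e he (h ▸ hV2 e' he'))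
      unfold Sm
      rw [t1, ht_congr t2 t3])
    (by
      intro e he Y
      have hp := hpos e he
      have t1 : ∀ s : Fin K, yr (Function.update Y (w e) s) (w e) = ((s : ℕ) : ℝ) := by
        intro s; simp [yr]
      have t2 : ∀ s : Fin K, ht (yr (Function.update Y (w e) s)) e (w e) = ht (yr Y) e (w e) := by
        intro s
        exact ht_congr (yr_update Y _ s (fun h => hw e he (by rw [← h]; exact hV1 e he)))
          (yr_update Y _ s (fun h => hw e he (by rw [← h]; exact hV2 e he))) _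
      have hset : (univ.filter (fun s : Fin K => Sm ε (Function.update Y (w e) s) e (w e)))
          = univ.filter (fun s : Fin K => |((s : ℕ) : ℝ) - ht (yr Y) e (w e)|
            < 12 * ε * K / (((e.2 : ℕ) : ℝ) - ((e.1 : ℕ) : ℝ))) := by
        ext s
        simp only [Finset.mem_filter, Finset.mem_univ, true_and, Sm, t1, t2]
      rw [hset]
      refine (count_interval K _ _ (by positivity)).trans ?_
      have h2N : (((e.2 : ℕ) : ℝ)) ≤ (N : ℝ) := by exact_mod_cast e.2.2.le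
      have h1N : (0 : ℝ) ≤ ((e.1 : ℕ) : ℝ) := by positivity
      have h3 : 1 ≤ ε * K / (((e.2 : ℕ) : ℝ) - ((e.1 : ℕ) : ℝ)) := by
        rw [le_div_iff₀ hp]
        linarith
      have e1 : 2 * (12 * ε * K / (((e.2 : ℕ) : ℝ) - ((e.1 : ℕ) : ℝ)))
          = 24 * (ε * K / (((e.2 : ℕ) : ℝ) - ((e.1 : ℕ) : ℝ))) := by ring
      have e2 : 25 * ε / (((e.2 : ℕ) : ℝ) - ((e.1 : ℕ) : ℝ)) * K
          = 25 * (ε * K / (((e.2 : ℕ) : ℝ) - ((e.1 : ℕ) : ℝ))) := by ring
      rw [e1, e2]
      linarith)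
  rw [cnt_eq, cnt_eq]
  convert h


/-- existence of a large family of thin triangles with noncrossing long edges -/
def Bad {N K : ℕ} (n : ℕ) (ε : ℝ) (Y : Fin N → Fin K) : Prop :=
  ∃ M : Finset (Fin N × Fin N), (∀ e ∈ M, e.1 < e.2) ∧ n ≤ 2 * M.card ∧ Gd M Y ∧
    ∃ w : Fin N × Fin N → Fin N, (∀ e ∈ M, e.1 < w e ∧ w e < e.2 ∧ w e ∉ V M) ∧
      (∀ e ∈ M, ∀ e' ∈ M, e ≠ e' → w e ≠ w e') ∧ ∀ e ∈ M, Sm ε Y e (w e)

noncomputable def MM (N n : ℕ) : Finset (Finset (Fin N × Fin N)) :=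
  univ.filter (fun M => (∀ e ∈ M, e.1 < e.2) ∧ n ≤ 2 * M.card)

noncomputable def PF {N : ℕ} (M : Finset (Fin N × Fin N)) : Finset (Fin N × Fin N → Fin N) :=
  Fintype.piFinset (fun e => if e ∈ M then Finset.Ioo e.1 e.2 else {e.1})

noncomputable def WW {N : ℕ} (M : Finset (Fin N × Fin N)) : Finset (Fin N × Fin N → Fin N) :=
  (PF M).filter (fun w => (∀ e ∈ M, w e ∉ V M) ∧ (∀ e ∈ M, ∀ e' ∈ M, e ≠ e' → w e ≠ w e'))

lemma PF_card {N : ℕ} (M : Finset (Fin N × Fin N)) (hM : ∀ e ∈ M, e.1 < e.2) :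
    ((PF M).card : ℝ) ≤ ∏ e ∈ M, (((e.2 : ℕ) : ℝ) - ((e.1 : ℕ) : ℝ)) := by
  have h1 : (PF M).card = ∏ e ∈ M, (Finset.Ioo e.1 e.2).card := by
    rw [PF, Fintype.card_piFinset]
    have h2 : ∀ e : Fin N × Fin N,
        (if e ∈ M then Finset.Ioo e.1 e.2 else {e.1} : Finset (Fin N)).card
        = if e ∈ M then (Finset.Ioo e.1 e.2).card else 1 := by
      intro e
      split_ifs <;> simp
    simp_rw [h2]
    rw [Finset.prod_ite_mem]
    simp
  rw [h1]
  push_cast
  apply Finset.prod_le_prod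
  · intro e _; positivity
  · intro e he
    rw [Fin.card_Ioo]
    have h3 := hM e he
    have h4 : ((e.2 : ℕ) - (e.1 : ℕ) - 1 : ℕ) ≤ (e.2 : ℕ) - (e.1 : ℕ) := by omega
    have h5 : (((e.2 : ℕ) - (e.1 : ℕ) : ℕ) : ℝ) = ((e.2 : ℕ) : ℝ) - ((e.1 : ℕ) : ℝ) := by
      rw [Nat.cast_sub]
      exact h3.le
    rw [← h5]
    exact_mod_cast h4

lemma step_M {N K : ℕ} (hK : 0 < K) {ε : ℝ} (hε : 0 < ε) (hKN : (N : ℝ) ≤ ε * K)
    (M : Finset (Fin N × Fin N)) (hM : ∀ e ∈ M, e.1 < e.2) :
    ∑ w ∈ WW M, cnt (fun Y : Fin N → Fin K => Gd M Y ∧ ∀ e ∈ M, Sm ε Y e (w e))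
      ≤ (25 * ε) ^ M.card * cnt (fun Y : Fin N → Fin K => Gd M Y) := by
  have hpos : ∀ e ∈ M, 0 < (((e.2 : ℕ) : ℝ) - ((e.1 : ℕ) : ℝ)) := by
    intro e he
    have := cast_lt (hM e he)
    linarith
  have h1 : ∑ w ∈ WW M, cnt (fun Y : Fin N → Fin K => Gd M Y ∧ ∀ e ∈ M, Sm ε Y e (w e))
      ≤ ∑ w ∈ WW M, (∏ e ∈ M, 25 * ε / (((e.2 : ℕ) : ℝ) - ((e.1 : ℕ) : ℝ))) *
        cnt (fun Y : Fin N → Fin K => Gd M Y) := by
    apply Finset.sum_le_sum
    intro w hw
    rw [WW, Finset.mem_filter] at hw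
    exact fixed_structure hK hε hKN M w hM hw.2.1 hw.2.2
  refine h1.trans ?_
  rw [Finset.sum_const, nsmul_eq_mul]
  have h2 : ((WW M).card : ℝ) ≤ ∏ e ∈ M, (((e.2 : ℕ) : ℝ) - ((e.1 : ℕ) : ℝ)) := by
    refine le_trans ?_ (PF_card M hM)
    exact_mod_cast Finset.card_filter_le _ _
  have h3 : 0 ≤ (∏ e ∈ M, 25 * ε / (((e.2 : ℕ) : ℝ) - ((e.1 : ℕ) : ℝ))) *
      cnt (fun Y : Fin N → Fin K => Gd M Y) := by
    apply mul_nonneg _ (cnt_nonneg _)
    apply Finset.prod_nonneg
    intro e he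
    have := hpos e he
    positivity
  refine (mul_le_mul_of_nonneg_right h2 h3).trans (le_of_eq ?_)
  rw [← mul_assoc, ← Finset.prod_mul_distrib]
  congr 1
  rw [← Finset.prod_const]
  apply Finset.prod_congr rfl
  intro e he
  have := hpos e he
  field_simp

lemma step_Y {N K n : ℕ} {ε δ : ℝ} (hε : 0 < ε) (hδ0 : 0 ≤ δ) (hδ1 : δ ≤ 1)
    (hδ : 25 * ε * (2 * 4 ^ 12) = δ ^ 2) (Y : Fin N → Fin K) :
    ∑ M ∈ MM N n, (if Gd M Y then (25 * ε) ^ M.card else 0) ≤ 16 ^ N * δ ^ n := by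
  rw [← Finset.sum_filter]
  have hfib : ∑ M ∈ (MM N n).filter (fun M => Gd M Y), (25 * ε) ^ M.card
      = ∑ AB : Finset (Fin N) × Finset (Fin N),
        ∑ M ∈ ((MM N n).filter (fun M => Gd M Y)).filter
          (fun M => (M.image Prod.fst, M.image Prod.snd) = AB), (25 * ε) ^ M.card := by
    rw [Finset.sum_fiberwise]
  rw [hfib]
  have hterm : ∀ AB ∈ (univ : Finset (Finset (Fin N) × Finset (Fin N))),
      ∑ M ∈ ((MM N n).filter (fun M => Gd M Y)).filter
          (fun M => (M.image Prod.fst, M.image Prod.snd) = AB), (25 * ε) ^ M.card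
      ≤ 4 ^ N * δ ^ n := by
    rintro ⟨A, B⟩ -
    by_cases hne : (((MM N n).filter (fun M => Gd M Y)).filter
          (fun M => (M.image Prod.fst, M.image Prod.snd) = (A, B))).Nonempty
    · obtain ⟨M0, hM0⟩ := hne
      simp only [Finset.mem_filter, MM, Finset.mem_univ, true_and, Prod.mk.injEq] at hM0
      obtain ⟨⟨⟨hlt0, hn0⟩, hg0⟩, hA0, hB0⟩ := hM0
      have hGP : GP (yr Y) (A ∪ B) := by
        have := hg0.2
        rw [V, hA0, hB0] at this
        exact this
      have hcM0 : M0.card = B.card := by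
        have := hg0.1
        rw [hA0, hB0] at this
        exact card_M this
      have hsub : ((MM N n).filter (fun M => Gd M Y)).filter
          (fun M => (M.image Prod.fst, M.image Prod.snd) = (A, B)) ⊆ MS (yr Y) A B := by
        intro M hM
        simp only [Finset.mem_filter, MM, Finset.mem_univ, true_and, Prod.mk.injEq] at hM
        rw [mem_MS, ← hM.2.1, ← hM.2.2]
        exact hM.1.2.1
      have hMS := MS_card (yr Y) _ A B rfl hGP
      have hA : A.card ≤ N := by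
        have := Finset.card_le_univ A
        rwa [Fintype.card_fin] at this
      calc _ ≤ ∑ M ∈ MS (yr Y) A B, (25 * ε) ^ M.card := by
            apply Finset.sum_le_sum_of_subset_of_nonneg hsub
            intro M _ _
            positivity
        _ = ∑ M ∈ MS (yr Y) A B, (25 * ε) ^ B.card := by
            apply Finset.sum_congr rfl
            intro M hM
            rw [card_M (mem_MS.1 hM)]
        _ = ((MS (yr Y) A B).card : ℝ) * (25 * ε) ^ B.card := by
            rw [Finset.sum_const, nsmul_eq_mul]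
        _ ≤ ((4 ^ A.card * (2 * 4 ^ 12) ^ B.card : ℕ) : ℝ) * (25 * ε) ^ B.card := by
            apply mul_le_mul_of_nonneg_right _ (by positivity)
            exact_mod_cast hMS
        _ = 4 ^ A.card * (δ ^ 2) ^ B.card := by
            rw [← hδ]
            push_cast
            rw [mul_assoc, ← mul_pow]
            ring
        _ ≤ 4 ^ N * δ ^ n := by
            apply mul_le_mul
            · exact pow_le_pow_right₀ (by norm_num) hA
            · rw [← pow_mul]
              exact pow_le_pow_of_le_one hδ0 hδ1 (by omega)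
            · positivity
            · positivity
    · rw [Finset.not_nonempty_iff_eq_empty] at hne
      rw [hne, Finset.sum_empty]
      positivity
  refine (Finset.sum_le_sum hterm).trans (le_of_eq ?_)
  rw [Finset.sum_const, Finset.card_univ, Fintype.card_prod, Fintype.card_finset,
    Fintype.card_fin, nsmul_eq_mul]
  push_cast
  rw [← mul_pow, ← mul_assoc, ← mul_pow]
  norm_num

theorem bad_count {N K n : ℕ} (hK : 0 < K) {ε δ : ℝ} (hε : 0 < ε) (hKN : (N : ℝ) ≤ ε * K)
    (hδ0 : 0 ≤ δ) (hδ1 : δ ≤ 1) (hδ : 25 * ε * (2 * 4 ^ 12) = δ ^ 2) :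
    cnt (fun Y : Fin N → Fin K => Bad n ε Y) ≤ (K : ℝ) ^ N * (16 ^ N * δ ^ n) := by
  have h1 : cnt (fun Y : Fin N → Fin K => Bad n ε Y)
      ≤ ∑ M ∈ MM N n, cnt (fun Y : Fin N → Fin K =>
          ∃ w ∈ WW M, Gd M Y ∧ ∀ e ∈ M, Sm ε Y e (w e)) := by
    apply cnt_le_sum
    rintro Y ⟨M, hlt, hn, hg, w, hw, hinj, hsm⟩
    refine ⟨M, ?_, fun e => if e ∈ M then w e else e.1, ?_, hg, ?_⟩
    · rw [MM, Finset.mem_filter]
      exact ⟨Finset.mem_univ _, hlt, hn⟩
    · rw [WW, Finset.mem_filter, PF, Fintype.mem_piFinset]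
      refine ⟨?_, ?_, ?_⟩
      · intro e
        by_cases he : e ∈ M
        · simp only [if_pos he, Finset.mem_Ioo]
          exact ⟨(hw e he).1, (hw e he).2.1⟩
        · simp only [if_neg he, Finset.mem_singleton]
      · intro e he
        simp only [if_pos he]
        exact (hw e he).2.2
      · intro e he e' he' hne
        simp only [if_pos he, if_pos he']
        exact hinj e he e' he' hne
    · intro e he
      simp only [if_pos he]
      exact hsm e he
  have h2 : ∀ M ∈ MM N n, cnt (fun Y : Fin N → Fin K =>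
          ∃ w ∈ WW M, Gd M Y ∧ ∀ e ∈ M, Sm ε Y e (w e))
      ≤ (25 * ε) ^ M.card * cnt (fun Y : Fin N → Fin K => Gd M Y) := by
    intro M hM
    rw [MM, Finset.mem_filter] at hM
    refine le_trans ?_ (step_M hK hε hKN M hM.2.1)
    apply cnt_le_sum
    intro Y hY
    exact hY
  have h3 : ∑ M ∈ MM N n, (25 * ε) ^ M.card * cnt (fun Y : Fin N → Fin K => Gd M Y)
      = ∑ Y : Fin N → Fin K, ∑ M ∈ MM N n, (if Gd M Y then (25 * ε) ^ M.card else 0) := by
    rw [Finset.sum_comm]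
    apply Finset.sum_congr rfl
    intro M _
    unfold cnt
    rw [Finset.mul_sum]
    apply Finset.sum_congr rfl
    intro Y _
    split_ifs <;> simp
  calc _ ≤ _ := h1
    _ ≤ _ := Finset.sum_le_sum h2
    _ = _ := h3
    _ ≤ ∑ Y : Fin N → Fin K, (16 ^ N * δ ^ n : ℝ) :=
        Finset.sum_le_sum (fun Y _ => step_Y hε hδ0 hδ1 hδ Y)
    _ = _ := by
        rw [Finset.sum_const, Finset.card_univ, Fintype.card_fun, Fintype.card_fin,
          Fintype.card_fin, nsmul_eq_mul]
        push_cast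
        ring

/-- few height functions have three collinear points -/
theorem notGP_count {N K : ℕ} (hK : 0 < K) :
    cnt (fun Y : Fin N → Fin K => ¬ GP (yr Y) univ) ≤ (N : ℝ) ^ 3 / K * (K : ℝ) ^ N := by
  have hK' : (0 : ℝ) < K := by exact_mod_cast hK
  have h1 : cnt (fun Y : Fin N → Fin K => ¬ GP (yr Y) univ)
      ≤ ∑ x : Fin N × Fin N × Fin N, cnt (fun Y : Fin N → Fin K =>
        (x.2.2 ≠ x.1 ∧ x.2.2 ≠ x.2.1) ∧ yr Y x.2.2 = ht (yr Y) (x.1, x.2.1) x.2.2) := by
    apply cnt_le_sum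
    intro Y hY
    unfold GP at hY
    push Not at hY
    obtain ⟨a, -, b, -, q, -, hab, hqa, hqb, he⟩ := hY
    exact ⟨(a, b, q), Finset.mem_univ _, ⟨hqa, hqb⟩, he⟩
  have h2 : ∀ x ∈ (univ : Finset (Fin N × Fin N × Fin N)), cnt (fun Y : Fin N → Fin K =>
        (x.2.2 ≠ x.1 ∧ x.2.2 ≠ x.2.1) ∧ yr Y x.2.2 = ht (yr Y) (x.1, x.2.1) x.2.2)
      ≤ 1 / K * (K : ℝ) ^ N := by
    rintro ⟨a, b, q⟩ -
    simp only
    by_cases hq : q ≠ a ∧ q ≠ b
    · have h := one_coord hK q (fun _ : Fin N → Fin K => q ≠ a ∧ q ≠ b)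
        (fun Y => yr Y q = ht (yr Y) (a, b) q) (1 / K) (fun _ _ => Iff.rfl)
        (by
          intro Y
          rw [one_div_mul_cancel hK'.ne']
          have : (univ.filter (fun s : Fin K => yr (Function.update Y q s) q
              = ht (yr (Function.update Y q s)) (a, b) q)).card ≤ 1 := by
            rw [Finset.card_le_one]
            intro s hs t ht'
            rw [Finset.mem_filter] at hs ht'
            have e1 : ∀ s : Fin K, ht (yr (Function.update Y q s)) (a, b) q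
                = ht (yr Y) (a, b) q := by
              intro s
              exact ht_congr (yr_update Y _ s hq.1.symm) (yr_update Y _ s hq.2.symm) _
            have e2 : ∀ s : Fin K, yr (Function.update Y q s) q = ((s : ℕ) : ℝ) := by
              intro s; simp [yr]
            rw [e1, e2] at hs ht'
            have : ((s : ℕ) : ℝ) = ((t : ℕ) : ℝ) := hs.2.trans ht'.2.symm
            apply Fin.ext
            exact_mod_cast this
          exact_mod_cast this)
      have h3 : ((univ.filter (fun _ : Fin N → Fin K => q ≠ a ∧ q ≠ b)).card : ℝ)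
          ≤ (K : ℝ) ^ N := by
        have := Finset.card_le_univ (univ.filter (fun _ : Fin N → Fin K => q ≠ a ∧ q ≠ b))
        rw [Fintype.card_fun, Fintype.card_fin, Fintype.card_fin] at this
        exact_mod_cast this
      have h4 : cnt (fun Y : Fin N → Fin K => (q ≠ a ∧ q ≠ b) ∧
          yr Y q = ht (yr Y) (a, b) q)
          ≤ 1 / K * ((univ.filter (fun _ : Fin N → Fin K => q ≠ a ∧ q ≠ b)).card : ℝ) := by
        rw [cnt_eq]
        convert h
      exact h4.trans (mul_le_mul_of_nonneg_left h3 (by positivity))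
    · have : cnt (fun Y : Fin N → Fin K => (q ≠ a ∧ q ≠ b) ∧ yr Y q = ht (yr Y) (a, b) q) = 0 := by
        unfold cnt
        apply Finset.sum_eq_zero
        intro Y _
        rw [if_neg]
        exact fun h => hq h.1
      rw [this]
      positivity
  refine h1.trans ((Finset.sum_le_sum h2).trans (le_of_eq ?_))
  rw [Finset.sum_const, Finset.card_univ, Fintype.card_prod, Fintype.card_prod,
    Fintype.card_fin, nsmul_eq_mul]
  push_cast
  ring

/-- existence of a good height function -/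
theorem exists_good {N K n : ℕ} (hK : 0 < K) {ε δ : ℝ} (hε : 0 < ε) (hKN : (N : ℝ) ≤ ε * K)
    (hδ0 : 0 ≤ δ) (hδ1 : δ ≤ 1) (hδ : 25 * ε * (2 * 4 ^ 12) = δ ^ 2)
    (h1 : (16 : ℝ) ^ N * δ ^ n ≤ 1 / 4) (h2 : (N : ℝ) ^ 3 / K ≤ 1 / 4) :
    ∃ Y : Fin N → Fin K, GP (yr Y) univ ∧ ¬ Bad n ε Y := by
  by_contra hcon
  push Not at hcon
  have hall : cnt (fun _ : Fin N → Fin K => True)
      ≤ cnt (fun Y : Fin N → Fin K => Bad n ε Y) +
        cnt (fun Y : Fin N → Fin K => ¬ GP (yr Y) univ) := by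
    unfold cnt
    rw [← Finset.sum_add_distrib]
    apply Finset.sum_le_sum
    intro Y _
    by_cases hG : GP (yr Y) univ
    · rw [if_pos trivial, if_pos (hcon Y hG), if_neg (not_not.mpr hG)]
      norm_num
    · rw [if_pos trivial, if_pos hG]
      split_ifs <;> norm_num
  have htot : cnt (fun _ : Fin N → Fin K => True) = (K : ℝ) ^ N := by
    unfold cnt
    simp
  have hb := bad_count (n := n) hK hε hKN hδ0 hδ1 hδ (N := N)
  have hg := notGP_count (N := N) hK
  have hpos : (0 : ℝ) < (K : ℝ) ^ N := by positivity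
  rw [htot] at hall
  nlinarith

end Pool.Agent.Helper54.Cnt
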