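import Mathlib
import Pool.Agent.Helper54.NC
import Pool.Agent.Helper54.Cnt

set_option autoImplicit false

namespace Pool.Agent.Helper54.Geo

open Finset Pool.Agent.Helper54.NC Pool.Agent.Helper54.Cnt

/-- a nondegenerate triangle has nonempty interior -/
lemma interior_tri (P Q R : ℝ × ℝ)
    (hD : (Q.1 - P.1) * (R.2 - P.2) - (R.1 - P.1) * (Q.2 - P.2) ≠ 0) :
    (interior (convexHull ℝ ({P, Q, R} : Set (ℝ × ℝ)))).Nonempty := by
  set D := (Q.1 - P.1) * (R.2 - P.2) - (R.1 - P.1) * (Q.2 - P.2) with hDdef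
  let lQ : ℝ × ℝ → ℝ := fun x => ((x.1 - P.1) * (R.2 - P.2) - (R.1 - P.1) * (x.2 - P.2)) / D
  let lR : ℝ × ℝ → ℝ := fun x => ((Q.1 - P.1) * (x.2 - P.2) - (x.1 - P.1) * (Q.2 - P.2)) / D
  let U : Set (ℝ × ℝ) := {x | 0 < lQ x} ∩ ({x | 0 < lR x} ∩ {x | 0 < 1 - lQ x - lR x})
  have hUo : IsOpen U := by
    have c1 : Continuous lQ := by fun_prop
    have c2 : Continuous lR := by fun_prop
    refine IsOpen.inter (isOpen_lt continuous_const c1) (IsOpen.inter
      (isOpen_lt continuous_const c2) (isOpen_lt continuous_const ?_))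
    fun_prop
  have hsub : U ⊆ convexHull ℝ ({P, Q, R} : Set (ℝ × ℝ)) := by
    rintro x ⟨h1, h2, h3⟩
    simp only [Set.mem_ofPred_eq] at h1 h2 h3
    have hx : x = (1 - lQ x - lR x) • P + lQ x • Q + lR x • R := by
      ext
      · simp only [lQ, lR, Prod.fst_add, Prod.smul_fst, smul_eq_mul]
        field_simp
        rw [hDdef]
        ring
      · simp only [lQ, lR, Prod.snd_add, Prod.smul_snd, smul_eq_mul]
        field_simp
        rw [hDdef]
        ring
    rw [hx]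
    have hP : P ∈ convexHull ℝ ({P, Q, R} : Set (ℝ × ℝ)) := subset_convexHull _ _ (by simp)
    have hQ : Q ∈ convexHull ℝ ({P, Q, R} : Set (ℝ × ℝ)) := subset_convexHull _ _ (by simp)
    have hR : R ∈ convexHull ℝ ({P, Q, R} : Set (ℝ × ℝ)) := subset_convexHull _ _ (by simp)
    have hc := convex_convexHull ℝ ({P, Q, R} : Set (ℝ × ℝ))
    have := hc.sum_mem (t := (univ : Finset (Fin 3)))
      (w := ![1 - lQ x - lR x, lQ x, lR x]) (z := ![P, Q, R])
      (by intro i _; fin_cases i <;> simp <;> linarith)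
      (by simp [Fin.sum_univ_three]; ring)
      (by intro i _; fin_cases i <;> simp [hP, hQ, hR])
    simpa [Fin.sum_univ_three] using this
  refine ⟨((P.1 + Q.1 + R.1) / 3, (P.2 + Q.2 + R.2) / 3), ?_⟩
  apply interior_maximal hsub hUo
  have e1 : lQ ((P.1 + Q.1 + R.1) / 3, (P.2 + Q.2 + R.2) / 3) = 1 / 3 := by
    simp only [lQ]
    field_simp
    rw [hDdef]
    ring
  have e2 : lR ((P.1 + Q.1 + R.1) / 3, (P.2 + Q.2 + R.2) / 3) = 1 / 3 := by
    simp only [lR]
    field_simp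
    rw [hDdef]
    ring
  refine ⟨?_, ?_, ?_⟩
  · simp only [Set.mem_ofPred_eq, e1]; norm_num
  · simp only [Set.mem_ofPred_eq, e2]; norm_num
  · simp only [Set.mem_ofPred_eq, e1, e2]; norm_num

lemma le_on_hull {S : Set (ℝ × ℝ)} (f : (ℝ × ℝ) →L[ℝ] ℝ) (u : ℝ)
    (hne : (interior (convexHull ℝ S)).Nonempty)
    (h : ∀ x ∈ interior (convexHull ℝ S), f x ≤ u) : ∀ x ∈ convexHull ℝ S, f x ≤ u := by
  intro x hx
  have hc := (convex_convexHull ℝ S).closure_interior_eq_closure_of_nonempty_interior hne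
  have hx' : x ∈ closure (interior (convexHull ℝ S)) := by
    rw [hc]; exact subset_closure hx
  have hcl : IsClosed {x : ℝ × ℝ | f x ≤ u} := isClosed_le f.continuous continuous_const
  exact (closure_minimal (s := interior (convexHull ℝ S)) h hcl) hx'

lemma ge_on_hull {S : Set (ℝ × ℝ)} (f : (ℝ × ℝ) →L[ℝ] ℝ) (u : ℝ)
    (hne : (interior (convexHull ℝ S)).Nonempty)
    (h : ∀ x ∈ interior (convexHull ℝ S), u ≤ f x) : ∀ x ∈ convexHull ℝ S, u ≤ f x := by
  intro x hx
  have hc := (convex_convexHull ℝ S).closure_interior_eq_closure_of_nonempty_interior hne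
  have hx' : x ∈ closure (interior (convexHull ℝ S)) := by
    rw [hc]; exact subset_closure hx
  have hcl : IsClosed {x : ℝ × ℝ | u ≤ f x} := isClosed_le continuous_const f.continuous
  exact (closure_minimal (s := interior (convexHull ℝ S)) h hcl) hx'

/-- the point of index `k` -/
noncomputable def pt {N K : ℕ} (Y : Fin N → Fin K) (k : Fin N) : ℝ × ℝ :=
  (((k : ℕ) : ℝ) / N, yr Y k / K)

lemma cross_pt {N K : ℕ} (hN : 0 < N) (hK : 0 < K) (Y : Fin N → Fin K) {a b : Fin N} (v : Fin N)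
    (hab : a < b) :
    ((pt Y v).1 - (pt Y a).1) * ((pt Y b).2 - (pt Y a).2) -
      ((pt Y b).1 - (pt Y a).1) * ((pt Y v).2 - (pt Y a).2)
    = (((b : ℕ) : ℝ) - ((a : ℕ) : ℝ)) * (ht (yr Y) (a, b) v - yr Y v) / (N * K) := by
  have h1 : (((b : ℕ) : ℝ) - ((a : ℕ) : ℝ)) ≠ 0 := by
    have := cast_lt hab
    linarith
  have hN' : (N : ℝ) ≠ 0 := by positivity
  have hK' : (K : ℝ) ≠ 0 := by positivity
  unfold pt ht ln
  simp only
  field_simp
  ring

lemma interior_pt {N K : ℕ} (hN : 0 < N) (hK : 0 < K) (Y : Fin N → Fin K)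
    (hGP : GP (yr Y) univ) {a v b : Fin N} (hav : a < v) (hvb : v < b) :
    (interior (convexHull ℝ ({pt Y a, pt Y v, pt Y b} : Set (ℝ × ℝ)))).Nonempty := by
  apply interior_tri
  rw [cross_pt hN hK Y v (hav.trans hvb)]
  have h1 : (((b : ℕ) : ℝ) - ((a : ℕ) : ℝ)) ≠ 0 := by
    have := cast_lt (hav.trans hvb)
    linarith
  have hN' : (N : ℝ) ≠ 0 := by positivity
  have hK' : (K : ℝ) ≠ 0 := by positivity
  have h2 : ht (yr Y) (a, b) v - yr Y v ≠ 0 := by
    have := hGP a (mem_univ _) b (mem_univ _) v (mem_univ _) (hav.trans hvb) hav.ne' hvb.ne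
    intro h
    apply this
    linarith
  positivity

lemma mem_seg {N K : ℕ} (Y : Fin N → Fin K) {a b : Fin N} (hab : a < b) (t : ℝ) :
    ((t / N, ln (yr Y) a b t / K) : ℝ × ℝ)
      = (1 - (t - ((a : ℕ) : ℝ)) / (((b : ℕ) : ℝ) - ((a : ℕ) : ℝ))) • pt Y a
        + ((t - ((a : ℕ) : ℝ)) / (((b : ℕ) : ℝ) - ((a : ℕ) : ℝ))) • pt Y b := by
  have h1 : (((b : ℕ) : ℝ) - ((a : ℕ) : ℝ)) ≠ 0 := by
    have := cast_lt hab
    linarith
  ext
  · simp only [pt, Prod.fst_add, Prod.smul_fst, smul_eq_mul]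
    field_simp
    ring
  · simp only [pt, Prod.snd_add, Prod.smul_snd, smul_eq_mul, ln]
    ring

lemma f_apply (f : (ℝ × ℝ) →L[ℝ] ℝ) (x : ℝ × ℝ) : f x = x.1 * f (1, 0) + x.2 * f (0, 1) := by
  have : x = x.1 • ((1 : ℝ), (0 : ℝ)) + x.2 • ((0 : ℝ), (1 : ℝ)) := by
    ext <;> simp
  conv_lhs => rw [this]
  rw [map_add, map_smul, map_smul]
  simp

lemma conv_le {s A B w : ℝ} (h0 : 0 < s) (h1 : s < 1) (hA : A ≤ w) (hB : B ≤ w) :
    (1 - s) * A + s * B ≤ w := by
  have t1 : (1 - s) * A ≤ (1 - s) * w := mul_le_mul_of_nonneg_left hA (by linarith)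
  have t2 : s * B ≤ s * w := mul_le_mul_of_nonneg_left hB h0.le
  linarith

lemma conv_eq {s A B w : ℝ} (h0 : 0 < s) (h1 : s < 1) (hA : A ≤ w) (hB : B ≤ w)
    (h : (1 - s) * A + s * B = w) : A = w ∧ B = w := by
  have t1 : (1 - s) * A ≤ (1 - s) * w := mul_le_mul_of_nonneg_left hA (by linarith)
  have t2 : s * B ≤ s * w := mul_le_mul_of_nonneg_left hB h0.le
  constructor
  · apply le_antisymm hA
    have : (1 - s) * w ≤ (1 - s) * A := by linarith
    exact le_of_mul_le_mul_left this (by linarith)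
  · apply le_antisymm hB
    have : s * w ≤ s * B := by linarith
    exact le_of_mul_le_mul_left this h0

lemma conv_eq' {s A B w : ℝ} (h0 : 0 < s) (h1 : s < 1) (hA : w ≤ A) (hB : w ≤ B)
    (h : (1 - s) * A + s * B = w) : A = w ∧ B = w := by
  have := conv_eq (A := -A) (B := -B) (w := -w) h0 h1 (by linarith) (by linarith) (by linarith)
  exact ⟨by linarith [this.1], by linarith [this.2]⟩

/-- disjoint interiors force noncrossing long edges -/
lemma nc_of_disjoint {N K : ℕ} (hN : 0 < N) (hK : 0 < K) (Y : Fin N → Fin K)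
    (hGP : GP (yr Y) univ) {a v b c u d : Fin N} (hav : a < v) (hvb : v < b) (hcu : c < u)
    (hud : u < d) (hac : a ≠ c) (had : a ≠ d) (hbc : b ≠ c) (hbd : b ≠ d)
    (hdis : Disjoint (interior (convexHull ℝ ({pt Y a, pt Y v, pt Y b} : Set (ℝ × ℝ))))
      (interior (convexHull ℝ ({pt Y c, pt Y u, pt Y d} : Set (ℝ × ℝ))))) :
    nc (yr Y) (a, b) (c, d) := by
  by_contra hnc
  have hab := hav.trans hvb
  have hcd := hcu.trans hud
  have hN' : (0 : ℝ) < N := by exact_mod_cast hN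
  have hK' : (0 : ℝ) < K := by exact_mod_cast hK
  unfold nc Bel at hnc
  push Not at hnc
  obtain ⟨⟨q1, a1, c1, b1, d1, g1⟩, ⟨q2, c2, a2, d2, b2, g2⟩⟩ := hnc
  simp only at a1 c1 b1 d1 c2 a2 d2 b2
  unfold ht at g1 g2
  simp only at g1 g2
  -- the crossing abscissa
  have hcont : ContinuousOn (fun t : ℝ => ln (yr Y) a b t - ln (yr Y) c d t)
      (Set.uIcc ((q1 : ℕ) : ℝ) ((q2 : ℕ) : ℝ)) := by
    apply Continuous.continuousOn
    unfold ln
    fun_prop
  have hivt := intermediate_value_uIcc hcont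
  have h0 : (0 : ℝ) ∈ Set.uIcc (ln (yr Y) a b ((q1 : ℕ) : ℝ) - ln (yr Y) c d ((q1 : ℕ) : ℝ))
      (ln (yr Y) a b ((q2 : ℕ) : ℝ) - ln (yr Y) c d ((q2 : ℕ) : ℝ)) := by
    rw [Set.mem_uIcc]
    right
    constructor <;> linarith
  obtain ⟨t, ht1, ht2⟩ := hivt h0
  simp only at ht2
  have hbounds : (((a : ℕ) : ℝ) ≤ t ∧ t ≤ ((b : ℕ) : ℝ)) ∧ (((c : ℕ) : ℝ) ≤ t ∧ t ≤ ((d : ℕ) : ℝ)) := by
    have A1 : ((a : ℕ) : ℝ) ≤ ((q1 : ℕ) : ℝ) := by exact_mod_cast a1
    have A2 : ((a : ℕ) : ℝ) ≤ ((q2 : ℕ) : ℝ) := by exact_mod_cast a2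
    have C1 : ((c : ℕ) : ℝ) ≤ ((q1 : ℕ) : ℝ) := by exact_mod_cast c1
    have C2 : ((c : ℕ) : ℝ) ≤ ((q2 : ℕ) : ℝ) := by exact_mod_cast c2
    have B1 : ((q1 : ℕ) : ℝ) ≤ ((b : ℕ) : ℝ) := by exact_mod_cast b1
    have B2 : ((q2 : ℕ) : ℝ) ≤ ((b : ℕ) : ℝ) := by exact_mod_cast b2
    have D1 : ((q1 : ℕ) : ℝ) ≤ ((d : ℕ) : ℝ) := by exact_mod_cast d1
    have D2 : ((q2 : ℕ) : ℝ) ≤ ((d : ℕ) : ℝ) := by exact_mod_cast d2
    rw [Set.mem_uIcc] at ht1
    rcases ht1 with ⟨h1, h2⟩ | ⟨h1, h2⟩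
    · exact ⟨⟨by linarith, by linarith⟩, ⟨by linarith, by linarith⟩⟩
    · exact ⟨⟨by linarith, by linarith⟩, ⟨by linarith, by linarith⟩⟩
  have hta : t ≠ ((a : ℕ) : ℝ) := by
    rintro rfl
    have := hGP c (mem_univ _) d (mem_univ _) a (mem_univ _) hcd hac had
    apply this
    unfold ht
    rw [← ln_left (yr Y) a b]
    simp only
    linarith
  have htb : t ≠ ((b : ℕ) : ℝ) := by
    rintro rfl
    have := hGP c (mem_univ _) d (mem_univ _) b (mem_univ _) hcd hbc hbd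
    apply this
    unfold ht
    rw [← ln_right (yr Y) hab]
    simp only
    linarith
  have htc : t ≠ ((c : ℕ) : ℝ) := by
    rintro rfl
    have := hGP a (mem_univ _) b (mem_univ _) c (mem_univ _) hab hac.symm hbc.symm
    apply this
    unfold ht
    rw [← ln_left (yr Y) c d]
    simp only
    linarith
  have htd : t ≠ ((d : ℕ) : ℝ) := by
    rintro rfl
    have := hGP a (mem_univ _) b (mem_univ _) d (mem_univ _) hab had.symm hbd.symm
    apply this
    unfold ht
    rw [← ln_right (yr Y) hcd]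
    simp only
    linarith
  obtain ⟨⟨ha, hb⟩, ⟨hc, hd⟩⟩ := hbounds
  have ha' := lt_of_le_of_ne ha hta.symm
  have hb' := lt_of_le_of_ne hb htb
  have hc' := lt_of_le_of_ne hc htc.symm
  have hd' := lt_of_le_of_ne hd htd
  have hba : (0 : ℝ) < ((b : ℕ) : ℝ) - ((a : ℕ) : ℝ) := by linarith
  have hdc : (0 : ℝ) < ((d : ℕ) : ℝ) - ((c : ℕ) : ℝ) := by linarith
  -- slopes differ
  have hslope : (yr Y b - yr Y a) / (((b : ℕ) : ℝ) - ((a : ℕ) : ℝ))
      ≠ (yr Y d - yr Y c) / (((d : ℕ) : ℝ) - ((c : ℕ) : ℝ)) := by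
    intro h
    have := hGP c (mem_univ _) d (mem_univ _) a (mem_univ _) hcd hac had
    apply this
    unfold ht
    simp only
    have e1 := ln_left (yr Y) a b
    have e2 : ln (yr Y) a b t - ln (yr Y) a b ((a : ℕ) : ℝ)
        = (yr Y b - yr Y a) / (((b : ℕ) : ℝ) - ((a : ℕ) : ℝ)) * (t - ((a : ℕ) : ℝ)) := by
      unfold ln; ring
    have e3 : ln (yr Y) c d t - ln (yr Y) c d ((a : ℕ) : ℝ)
        = (yr Y d - yr Y c) / (((d : ℕ) : ℝ) - ((c : ℕ) : ℝ)) * (t - ((a : ℕ) : ℝ)) := by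
      unfold ln; ring
    rw [h] at e2
    linarith
  -- separation
  have hne1 := interior_pt hN hK Y hGP hav hvb
  have hne2 := interior_pt hN hK Y hGP hcu hud
  obtain ⟨f, w, hf1, hf2⟩ := geometric_hahn_banach_open_open
    ((convex_convexHull ℝ ({pt Y a, pt Y v, pt Y b} : Set (ℝ × ℝ))).interior) isOpen_interior
    ((convex_convexHull ℝ ({pt Y c, pt Y u, pt Y d} : Set (ℝ × ℝ))).interior) isOpen_interior hdis
  have hle := le_on_hull f w hne1 (fun x hx => (hf1 x hx).le)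
  have hge := ge_on_hull f w hne2 (fun x hx => (hf2 x hx).le)
  have hfa : f (pt Y a) ≤ w := hle _ (subset_convexHull _ _ (by simp))
  have hfb : f (pt Y b) ≤ w := hle _ (subset_convexHull _ _ (by simp))
  have hfc : w ≤ f (pt Y c) := hge _ (subset_convexHull _ _ (by simp))
  have hfd : w ≤ f (pt Y d) := hge _ (subset_convexHull _ _ (by simp))
  have hz1 : f ((t / N, ln (yr Y) a b t / K) : ℝ × ℝ)
      = (1 - (t - ((a : ℕ) : ℝ)) / (((b : ℕ) : ℝ) - ((a : ℕ) : ℝ))) * f (pt Y a)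
        + ((t - ((a : ℕ) : ℝ)) / (((b : ℕ) : ℝ) - ((a : ℕ) : ℝ))) * f (pt Y b) := by
    rw [mem_seg Y hab, map_add, map_smul, map_smul]
    simp
  have hz2 : f ((t / N, ln (yr Y) a b t / K) : ℝ × ℝ)
      = (1 - (t - ((c : ℕ) : ℝ)) / (((d : ℕ) : ℝ) - ((c : ℕ) : ℝ))) * f (pt Y c)
        + ((t - ((c : ℕ) : ℝ)) / (((d : ℕ) : ℝ) - ((c : ℕ) : ℝ))) * f (pt Y d) := by
    have : ln (yr Y) a b t = ln (yr Y) c d t := by linarith
    rw [this, mem_seg Y hcd, map_add, map_smul, map_smul]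
    simp
  have s1 : 0 < (t - ((a : ℕ) : ℝ)) / (((b : ℕ) : ℝ) - ((a : ℕ) : ℝ)) := by
    apply div_pos <;> linarith
  have s2 : (t - ((a : ℕ) : ℝ)) / (((b : ℕ) : ℝ) - ((a : ℕ) : ℝ)) < 1 := by
    rw [div_lt_one hba]; linarith
  have s3 : 0 < (t - ((c : ℕ) : ℝ)) / (((d : ℕ) : ℝ) - ((c : ℕ) : ℝ)) := by
    apply div_pos <;> linarith
  have s4 : (t - ((c : ℕ) : ℝ)) / (((d : ℕ) : ℝ) - ((c : ℕ) : ℝ)) < 1 := by
    rw [div_lt_one hdc]; linarith
  set s := (t - ((a : ℕ) : ℝ)) / (((b : ℕ) : ℝ) - ((a : ℕ) : ℝ)) with hs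
  set r := (t - ((c : ℕ) : ℝ)) / (((d : ℕ) : ℝ) - ((c : ℕ) : ℝ)) with hr
  set F := f ((t / N, ln (yr Y) a b t / K) : ℝ × ℝ) with hF
  have hFle : F ≤ w := by
    rw [hz1]
    exact conv_le s1 s2 hfa hfb
  have hFge : w ≤ F := by
    rw [hz2]
    have := conv_le (A := -f (pt Y c)) (B := -f (pt Y d)) (w := -w) s3 s4 (by linarith)
      (by linarith)
    linarith
  have hFw : F = w := le_antisymm hFle hFge
  obtain ⟨ea, eb⟩ := conv_eq s1 s2 hfa hfb (by rw [← hz1]; exact hFw)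
  obtain ⟨ec, ed⟩ := conv_eq' s3 s4 hfc hfd (by rw [← hz2]; exact hFw)
  rw [f_apply f (pt Y a)] at ea
  rw [f_apply f (pt Y b)] at eb
  rw [f_apply f (pt Y c)] at ec
  rw [f_apply f (pt Y d)] at ed
  unfold pt at ea eb ec ed
  simp only at ea eb ec ed
  set α := f (1, 0) with hα
  set β := f (0, 1) with hβ
  have m1 : (((b : ℕ) : ℝ) - ((a : ℕ) : ℝ)) * (α / N) + (yr Y b - yr Y a) * (β / K) = 0 := by
    have : ((b : ℕ) : ℝ) / N * α + yr Y b / K * β
      - (((a : ℕ) : ℝ) / N * α + yr Y a / K * β) = 0 := by rw [ea, eb]; ring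
    linear_combination this
  have m2 : (((d : ℕ) : ℝ) - ((c : ℕ) : ℝ)) * (α / N) + (yr Y d - yr Y c) * (β / K) = 0 := by
    have : ((d : ℕ) : ℝ) / N * α + yr Y d / K * β
      - (((c : ℕ) : ℝ) / N * α + yr Y c / K * β) = 0 := by rw [ec, ed]; ring
    linear_combination this
  have m3 : α / N + (yr Y b - yr Y a) / (((b : ℕ) : ℝ) - ((a : ℕ) : ℝ)) * (β / K) = 0 := by
    field_simp
    field_simp at m1
    linarith
  have m4 : α / N + (yr Y d - yr Y c) / (((d : ℕ) : ℝ) - ((c : ℕ) : ℝ)) * (β / K) = 0 := by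
    field_simp
    field_simp at m2
    linarith
  have m5 : ((yr Y b - yr Y a) / (((b : ℕ) : ℝ) - ((a : ℕ) : ℝ))
      - (yr Y d - yr Y c) / (((d : ℕ) : ℝ) - ((c : ℕ) : ℝ))) * (β / K) = 0 := by
    linear_combination m3 - m4
  have hβ0 : β / K = 0 := by
    rcases mul_eq_zero.mp m5 with h | h
    · exact absurd (sub_eq_zero.mp h) hslope
    · exact h
  have hα0 : α / N = 0 := by
    rw [hβ0] at m3
    linarith
  have hβ1 : β = 0 := by
    rcases div_eq_zero_iff.mp hβ0 with h | h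
    · exact h
    · linarith
  have hα1 : α = 0 := by
    rcases div_eq_zero_iff.mp hα0 with h | h
    · exact h
    · linarith
  obtain ⟨x1, hx1⟩ := hne1
  obtain ⟨x2, hx2⟩ := hne2
  have k1 := hf1 x1 hx1
  have k2 := hf2 x2 hx2
  rw [f_apply f x1, ← hα, ← hβ, hα1, hβ1] at k1
  rw [f_apply f x2, ← hα, ← hβ, hα1, hβ1] at k2
  linarith


lemma area_sorted {N K : ℕ} (hN : 0 < N) (hK : 0 < K) (Y : Fin N → Fin K) {a v b : Fin N}
    (hab : a < b) (D : ℝ)
    (hD : |D| = |((pt Y v).1 - (pt Y a).1) * ((pt Y b).2 - (pt Y a).2) -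
      ((pt Y b).1 - (pt Y a).1) * ((pt Y v).2 - (pt Y a).2)|) :
    |D| / 2 = (((b : ℕ) : ℝ) - ((a : ℕ) : ℝ)) * |yr Y v - ht (yr Y) (a, b) v| / (2 * (N * K)) := by
  have h1 : (0 : ℝ) < (((b : ℕ) : ℝ) - ((a : ℕ) : ℝ)) := by
    have := cast_lt hab
    linarith
  have hN' : (0 : ℝ) < N := by exact_mod_cast hN
  have hK' : (0 : ℝ) < K := by exact_mod_cast hK
  rw [hD, cross_pt hN hK Y v hab, abs_div, abs_mul, abs_of_pos h1, abs_of_pos (mul_pos hN' hK'),
    abs_sub_comm]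
  field_simp

/-- sorting a triple of indices -/
lemma sort3 {N K : ℕ} (hN : 0 < N) (hK : 0 < K) (Y : Fin N → Fin K) (x0 x1 x2 : Fin N)
    (h01 : x0 ≠ x1) (h02 : x0 ≠ x2) (h12 : x1 ≠ x2) :
    ∃ a v b : Fin N, a < v ∧ v < b ∧ ({x0, x1, x2} : Set (Fin N)) = {a, v, b} ∧
      |((pt Y x1).1 - (pt Y x0).1) * ((pt Y x2).2 - (pt Y x0).2) -
        ((pt Y x2).1 - (pt Y x0).1) * ((pt Y x1).2 - (pt Y x0).2)| / 2
      = (((b : ℕ) : ℝ) - ((a : ℕ) : ℝ)) * |yr Y v - ht (yr Y) (a, b) v| / (2 * (N * K)) := by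
  rcases lt_or_gt_of_ne h01 with h | h <;> rcases lt_or_gt_of_ne h02 with h' | h' <;>
    rcases lt_or_gt_of_ne h12 with h'' | h''
  · -- x0 < x1 < x2
    refine ⟨x0, x1, x2, h, h'', rfl, ?_⟩
    apply area_sorted hN hK Y h'
    rfl
  · -- x0 < x2 < x1
    refine ⟨x0, x2, x1, h', h'', ?_, ?_⟩
    · ext z; simp only [Set.mem_insert_iff, Set.mem_singleton_iff]; tauto
    · apply area_sorted hN hK Y h
      rw [← abs_neg]
      congr 1; ring
  · -- x2 < x0 < x1, x1 < x2 impossible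
    exact absurd (h''.trans (h'.trans h)) (lt_irrefl _)
  · -- x2 < x0 < x1
    refine ⟨x2, x0, x1, h', h, ?_, ?_⟩
    · ext z; simp only [Set.mem_insert_iff, Set.mem_singleton_iff]; tauto
    · apply area_sorted hN hK Y h''
      congr 1; ring
  · -- x1 < x0 < x2
    refine ⟨x1, x0, x2, h, h', ?_, ?_⟩
    · ext z; simp only [Set.mem_insert_iff, Set.mem_singleton_iff]; tauto
    · apply area_sorted hN hK Y h''
      rw [← abs_neg]
      congr 1; ring
  · exact absurd (h''.trans (h.trans h')) (lt_irrefl _)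
  · -- x1 < x2 < x0
    refine ⟨x1, x2, x0, h'', h', ?_, ?_⟩
    · ext z; simp only [Set.mem_insert_iff, Set.mem_singleton_iff]; tauto
    · apply area_sorted hN hK Y h
      congr 1; ring
  · -- x2 < x1 < x0
    refine ⟨x2, x1, x0, h'', h, ?_, ?_⟩
    · ext z; simp only [Set.mem_insert_iff, Set.mem_singleton_iff]; tauto
    · apply area_sorted hN hK Y h'
      rw [← abs_neg]
      congr 1; ring

lemma pt_image {N K : ℕ} (Y : Fin N → Fin K) (a b c : Fin N) :
    ({pt Y a, pt Y b, pt Y c} : Set (ℝ × ℝ)) = pt Y '' {a, b, c} := by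
  rw [Set.image_insert_eq, Set.image_insert_eq, Set.image_singleton]

/-- a cheap interior-disjoint partition into triples makes the height function bad -/
theorem bad_of_partition {n K : ℕ} (hn : 0 < n) (hK : 0 < K) {ε : ℝ}
    (Y : Fin (3 * n) → Fin K) (hGP : GP (yr Y) univ)
    (σ : Fin (3 * n) ≃ Fin n × Fin 3)
    (hdis : ∀ i j : Fin n, i ≠ j →
      Disjoint
        (interior (convexHull ℝ
          ({pt Y (σ.symm (i, 0)), pt Y (σ.symm (i, 1)), pt Y (σ.symm (i, 2))} : Set (ℝ × ℝ))))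
        (interior (convexHull ℝ
          ({pt Y (σ.symm (j, 0)), pt Y (σ.symm (j, 1)), pt Y (σ.symm (j, 2))} : Set (ℝ × ℝ)))))
    (harea : ∑ i : Fin n,
      |((pt Y (σ.symm (i, 1))).1 - (pt Y (σ.symm (i, 0))).1) *
          ((pt Y (σ.symm (i, 2))).2 - (pt Y (σ.symm (i, 0))).2) -
        ((pt Y (σ.symm (i, 2))).1 - (pt Y (σ.symm (i, 0))).1) *
          ((pt Y (σ.symm (i, 1))).2 - (pt Y (σ.symm (i, 0))).2)| / 2 < ε) :
    Bad n ε Y := by
  classical
  have hN : 0 < 3 * n := by omega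
  have hn' : (0 : ℝ) < n := by exact_mod_cast hn
  have hK' : (0 : ℝ) < K := by exact_mod_cast hK
  have hex : ∀ i : Fin n, ∃ a v b : Fin (3 * n), a < v ∧ v < b ∧
      ({σ.symm (i, 0), σ.symm (i, 1), σ.symm (i, 2)} : Set (Fin (3 * n))) = {a, v, b} ∧
      |((pt Y (σ.symm (i, 1))).1 - (pt Y (σ.symm (i, 0))).1) *
          ((pt Y (σ.symm (i, 2))).2 - (pt Y (σ.symm (i, 0))).2) -
        ((pt Y (σ.symm (i, 2))).1 - (pt Y (σ.symm (i, 0))).1) *
          ((pt Y (σ.symm (i, 1))).2 - (pt Y (σ.symm (i, 0))).2)| / 2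
      = (((b : ℕ) : ℝ) - ((a : ℕ) : ℝ)) * |yr Y v - ht (yr Y) (a, b) v|
        / (2 * (((3 * n : ℕ) : ℝ) * K)) := by
    intro i
    apply sort3 hN hK Y
    · intro h
      have := σ.symm.injective h
      simp at this
    · intro h
      have := σ.symm.injective h
      simp at this
    · intro h
      have := σ.symm.injective h
      simp at this
  choose a v b hav hvb hset har using hex
  have hmem : ∀ i, ∀ z ∈ ({a i, v i, b i} : Set (Fin (3 * n))), (σ z).1 = i := by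
    intro i z hz
    rw [← hset i] at hz
    simp only [Set.mem_insert_iff, Set.mem_singleton_iff] at hz
    rcases hz with h | h | h <;> rw [h] <;> simp
  have ha : ∀ i, (σ (a i)).1 = i := fun i => hmem i _ (by simp)
  have hv : ∀ i, (σ (v i)).1 = i := fun i => hmem i _ (by simp)
  have hb : ∀ i, (σ (b i)).1 = i := fun i => hmem i _ (by simp)
  -- distinctness across triples
  have haa : ∀ i j, a i = a j → i = j := fun i j h => by rw [← ha i, h, ha j]
  have hvv : ∀ i j, v i = v j → i = j := fun i j h => by rw [← hv i, h, hv j]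
  have hbb : ∀ i j, b i = b j → i = j := fun i j h => by rw [← hb i, h, hb j]
  have hab : ∀ i j, a i = b j → i = j := fun i j h => by rw [← ha i, h, hb j]
  have hva : ∀ i j, v i = a j → i = j := fun i j h => by rw [← hv i, h, ha j]
  have hvb' : ∀ i j, v i = b j → i = j := fun i j h => by rw [← hv i, h, hb j]
  have hdis' : ∀ i j, i ≠ j → nc (yr Y) (a i, b i) (a j, b j) := by
    intro i j hij
    apply nc_of_disjoint hN hK Y hGP (hav i) (hvb i) (hav j) (hvb j)
      (fun h => hij (haa i j h)) (fun h => hij (hab i j h))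
      (fun h => hij (hab j i h.symm).symm) (fun h => hij (hbb i j h))
    have := hdis i j hij
    rw [pt_image, pt_image, hset i, hset j, ← pt_image, ← pt_image] at this
    exact this
  set A : Fin n → ℝ := fun i => (((b i : ℕ) : ℝ) - ((a i : ℕ) : ℝ)) *
    |yr Y (v i) - ht (yr Y) (a i, b i) (v i)| / (2 * (((3 * n : ℕ) : ℝ) * K)) with hA
  have hsum : ∑ i : Fin n, A i < ε := by
    refine lt_of_le_of_lt (le_of_eq ?_) harea
    apply Finset.sum_congr rfl
    intro i _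
    rw [har i]
  have hba : ∀ i, (0 : ℝ) < ((b i : ℕ) : ℝ) - ((a i : ℕ) : ℝ) := by
    intro i
    have := cast_lt ((hav i).trans (hvb i))
    linarith
  have hA0 : ∀ i, 0 ≤ A i := by
    intro i
    have := hba i
    simp only [hA]
    positivity
  set I : Finset (Fin n) := univ.filter (fun i => A i < 2 * ε / n) with hI
  have hIcard : n ≤ 2 * I.card := by
    by_contra hcon
    push Not at hcon
    have h1 : (univ.filter (fun i => A i < 2 * ε / n)).card +
        (univ.filter (fun i => ¬ A i < 2 * ε / n)).card = n := by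
      rw [Finset.card_filter_add_card_filter_not, Finset.card_univ, Fintype.card_fin]
    rw [← hI] at h1
    have h2 : ((univ.filter (fun i => ¬ A i < 2 * ε / n)).card : ℝ) * (2 * ε / n) ≤ ∑ i, A i := by
      calc ((univ.filter (fun i => ¬ A i < 2 * ε / n)).card : ℝ) * (2 * ε / n)
          = ∑ i ∈ univ.filter (fun i => ¬ A i < 2 * ε / n), (2 * ε / n) := by
            rw [Finset.sum_const, nsmul_eq_mul]
        _ ≤ ∑ i ∈ univ.filter (fun i => ¬ A i < 2 * ε / n), A i := by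
            apply Finset.sum_le_sum
            intro i hi
            rw [Finset.mem_filter] at hi
            exact not_lt.mp hi.2
        _ ≤ ∑ i, A i := by
            apply Finset.sum_le_sum_of_subset_of_nonneg (Finset.filter_subset _ _)
            intro i _ _
            exact hA0 i
    have hε : 0 < ε := lt_of_le_of_lt (Finset.sum_nonneg (fun i _ => hA0 i)) hsum
    have h3 : (n : ℝ) < 2 * ((univ.filter (fun i => ¬ A i < 2 * ε / n)).card : ℝ) := by
      have : n < 2 * (univ.filter (fun i => ¬ A i < 2 * ε / n)).card := by omega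
      exact_mod_cast this
    have h4 : ε < ((univ.filter (fun i => ¬ A i < 2 * ε / n)).card : ℝ) * (2 * ε / n) := by
      rw [mul_div_assoc', lt_div_iff₀ hn']
      nlinarith
    linarith
  -- the structure
  refine ⟨I.image (fun i => (a i, b i)), ?_, ?_, ?_, fun e => v (σ e.1).1, ?_, ?_, ?_⟩
  · intro e he
    obtain ⟨i, -, rfl⟩ := Finset.mem_image.mp he
    exact (hav i).trans (hvb i)
  · rw [Finset.card_image_of_injective]
    · exact hIcard
    · intro i j h
      exact haa i j (Prod.mk.inj h).1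
  · refine ⟨⟨?_, ?_, ?_⟩, GP_mono hGP (Finset.subset_univ _)⟩
    · intro e he
      refine ⟨Finset.mem_image_of_mem _ he, Finset.mem_image_of_mem _ he, ?_⟩
      obtain ⟨i, -, rfl⟩ := Finset.mem_image.mp he
      exact (hav i).trans (hvb i)
    · intro e he e' he' hne
      obtain ⟨i, -, rfl⟩ := Finset.mem_image.mp he
      obtain ⟨j, -, rfl⟩ := Finset.mem_image.mp he'
      have hij : i ≠ j := by
        rintro rfl
        exact hne rfl
      exact ⟨fun h => hij (haa i j h), fun h => hij (hbb i j h), hdis' i j hij⟩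
    · intro z hz
      obtain ⟨e, he, rfl⟩ := Finset.mem_image.mp hz
      exact ⟨e, he, rfl⟩
  · intro e he
    obtain ⟨i, -, rfl⟩ := Finset.mem_image.mp he
    simp only [ha i]
    refine ⟨hav i, hvb i, ?_⟩
    intro hV
    rw [V, Finset.mem_union, Finset.mem_image, Finset.mem_image] at hV
    rcases hV with ⟨e', he', h⟩ | ⟨e', he', h⟩
    · obtain ⟨j, -, rfl⟩ := Finset.mem_image.mp he'
      simp only at h
      have hij := hva i j h.symm
      subst hij
      exact absurd h (hav i).ne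
    · obtain ⟨j, -, rfl⟩ := Finset.mem_image.mp he'
      simp only at h
      have hij := hvb' i j h.symm
      subst hij
      exact absurd h (hvb i).ne'
  · intro e he e' he' hne
    obtain ⟨i, -, rfl⟩ := Finset.mem_image.mp he
    obtain ⟨j, -, rfl⟩ := Finset.mem_image.mp he'
    simp only [ha i, ha j]
    intro h
    have hij := hvv i j h
    subst hij
    exact hne rfl
  · intro e he
    obtain ⟨i, hi, rfl⟩ := Finset.mem_image.mp he
    rw [hI, Finset.mem_filter] at hi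
    unfold Sm
    simp only [ha i]
    have h1 := hi.2
    simp only [hA] at h1
    rw [lt_div_iff₀ (hba i)]
    rw [div_lt_div_iff₀ (by positivity) hn'] at h1
    push_cast at h1
    have h2 : (((b i : ℕ) : ℝ) - ((a i : ℕ) : ℝ)) * |yr Y (v i) - ht (yr Y) (a i, b i) (v i)| * n
        < (12 * ε * K) * n := by
      linarith
    have h3 := lt_of_mul_lt_mul_right h2 hn'.le
    linarith

end Pool.Agent.Helper54.Geo
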